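import Mathlib.Combinatorics.Matroid.Rank.ENat
import Mathlib.Combinatorics.Matroid.Circuit
import Mathlib.Combinatorics.Matroid.Minor.Restrict
import Mathlib.Tactic

/-!
# Lattice path matroids: the order property
-/

set_option autoImplicit false

namespace Pool.Agent.J4.H48.LPM

open Set

universe u

variable {α : Type u} {M : Matroid α}

/-- the rank as a natural number -/
noncomputable def rk (M : Matroid α) (X : Set α) : ℕ := (M.eRk X).toNat

theorem coe_rk (M : Matroid α) [M.Finite] (X : Set α) : (rk M X : ℕ∞) = M.eRk X := by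
  apply ENat.natCast_toNat
  rw [Matroid.eRk_ne_top_iff]
  exact Matroid.isRkFinite_set M X

theorem ncard_le_rk [M.Finite] {I X : Set α} (hI : M.Indep I) (h : I ⊆ X) : I.ncard ≤ rk M X := by
  have h1 := hI.encard_le_eRk_of_subset h
  rw [← coe_rk, ← (M.set_finite I hI.subset_ground).cast_ncard_eq] at h1
  exact_mod_cast h1

theorem ncard_eq_rk [M.Finite] {I X : Set α} (hI : M.IsBasis I X) : I.ncard = rk M X := by
  have h1 := hI.encard_eq_eRk
  rw [← coe_rk, ← (M.set_finite I hI.indep.subset_ground).cast_ncard_eq] at h1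
  exact_mod_cast h1

theorem exists_basis [M.Finite] {X : Set α} (hX : X ⊆ M.E) : ∃ I, M.IsBasis I X ∧ I.ncard = rk M X := by
  obtain ⟨I, hI⟩ := M.exists_isBasis X hX
  exact ⟨I, hI, ncard_eq_rk hI⟩

theorem isBasis_of [M.Finite] {I X : Set α} (hI : M.Indep I) (h : I ⊆ X) (hX : X ⊆ M.E)
    (hc : rk M X ≤ I.ncard) : M.IsBasis I X := by
  obtain ⟨J, hJ, hIJ⟩ := hI.subset_isBasis_of_subset h
  have h1 := ncard_eq_rk hJ
  have h2 : I = J := Set.eq_of_subset_of_ncard_le hIJ (by omega) (M.set_finite J hJ.indep.subset_ground)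
  rw [h2]
  exact hJ

theorem base_ncard [M.Finite] {B : Set α} (hB : M.IsBase B) : B.ncard = rk M M.E :=
  ncard_eq_rk (Matroid.isBasis_ground_iff.2 hB)

theorem isBase_of [M.Finite] {I : Set α} (hI : M.Indep I) (hc : rk M M.E ≤ I.ncard) : M.IsBase I :=
  Matroid.isBasis_ground_iff.1 (isBasis_of hI hI.subset_ground subset_rfl hc)

theorem rk_mono [M.Finite] {X Y : Set α} (h : X ⊆ Y) : rk M X ≤ rk M Y := by
  have h1 := M.eRk_mono h
  rw [← coe_rk, ← coe_rk] at h1
  exact_mod_cast h1

theorem rk_union_le [M.Finite] (X Y : Set α) : rk M (X ∪ Y) ≤ rk M X + rk M Y := by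
  have h1 := M.eRk_union_le_eRk_add_eRk X Y
  rw [← coe_rk, ← coe_rk, ← coe_rk] at h1
  exact_mod_cast h1

theorem rk_le_ncard [M.Finite] {X : Set α} (hX : X ⊆ M.E) : rk M X ≤ X.ncard := by
  obtain ⟨I, hI, hc⟩ := exists_basis hX
  rw [← hc]
  exact Set.ncard_le_ncard hI.subset (M.set_finite X hX)

/-- the elements in front of the position `k` -/
def L (M : Matroid α) (pos : α → ℕ) (k : ℕ) : Set α := {x ∈ M.E | pos x < k}

/-- the elements not in front of the position `k` -/
def U (M : Matroid α) (pos : α → ℕ) (k : ℕ) : Set α := {x ∈ M.E | k ≤ pos x}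

theorem L_sub (M : Matroid α) (pos : α → ℕ) (k : ℕ) : L M pos k ⊆ M.E := fun _ h => h.1

theorem U_sub (M : Matroid α) (pos : α → ℕ) (k : ℕ) : U M pos k ⊆ M.E := fun _ h => h.1

theorem LU_union (M : Matroid α) (pos : α → ℕ) (k : ℕ) : L M pos k ∪ U M pos k = M.E := by
  ext x
  constructor
  · rintro (h | h)
    · exact h.1
    · exact h.1
  · intro h
    rcases Nat.lt_or_ge (pos x) k with h' | h'
    · exact Or.inl ⟨h, h'⟩
    · exact Or.inr ⟨h, h'⟩

theorem LU_ncard [M.Finite] (pos : α → ℕ) (k : ℕ) {B : Set α} (hB : B ⊆ M.E) :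
    (B ∩ L M pos k).ncard + (B ∩ U M pos k).ncard = B.ncard := by
  have hd : Disjoint (B ∩ L M pos k) (B ∩ U M pos k) := by
    rw [Set.disjoint_left]
    rintro x ⟨_, h1⟩ ⟨_, h2⟩
    exact absurd h1.2 (not_lt.2 h2.2)
  rw [← Set.ncard_union_eq hd (M.set_finite _ (Set.inter_subset_left.trans hB))
    (M.set_finite _ (Set.inter_subset_left.trans hB)), ← Set.inter_union_distrib_left, LU_union,
    Set.inter_eq_left.2 hB]

/-- `B` satisfies the necessary conditions for a base -/
structure Ok (M : Matroid α) (pos : α → ℕ) (B : Set α) : Prop where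
  sub : B ⊆ M.E
  card : B.ncard = rk M M.E
  low : ∀ k, (B ∩ L M pos k).ncard ≤ rk M (L M pos k)
  up : ∀ k, (B ∩ U M pos k).ncard ≤ rk M (U M pos k)

/-- the order property: the necessary conditions are sufficient -/
def OP (M : Matroid α) (pos : α → ℕ) : Prop :=
  Set.InjOn pos M.E ∧ ∀ B, Ok M pos B → M.IsBase B

theorem ok_of_base [M.Finite] {pos : α → ℕ} {B : Set α} (hB : M.IsBase B) : Ok M pos B :=
  ⟨hB.subset_ground, base_ncard hB,
    fun _ => ncard_le_rk (hB.indep.subset Set.inter_subset_left) Set.inter_subset_right,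
    fun _ => ncard_le_rk (hB.indep.subset Set.inter_subset_left) Set.inter_subset_right⟩

/-- the number of elements after an exchange -/
theorem ncard_exch [M.Finite] {D S : Set α} (hD : D ⊆ M.E) (_ : S ⊆ M.E) {x y : α} (hx : x ∈ D)
    (hy : y ∉ D) (hyE : y ∈ M.E) [Decidable (x ∈ S)] [Decidable (y ∈ S)] :
    ((insert y (D \ {x})) ∩ S).ncard + (if x ∈ S then 1 else 0) = (D ∩ S).ncard + (if y ∈ S then 1 else 0) := by
  have hfin : (D ∩ S).Finite := M.set_finite _ (Set.inter_subset_left.trans hD)
  have h1 : ((D \ {x}) ∩ S).ncard + (if x ∈ S then 1 else 0) = (D ∩ S).ncard := by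
    split_ifs with h
    · have : (D \ {x}) ∩ S = (D ∩ S) \ {x} := by
        ext z
        simp only [mem_inter_iff, mem_sdiff, mem_singleton_iff]
        tauto
      rw [this]
      exact Set.ncard_sdiff_singleton_add_one ⟨hx, h⟩ hfin
    · have : (D \ {x}) ∩ S = D ∩ S := by
        ext z
        simp only [mem_inter_iff, mem_sdiff, mem_singleton_iff]
        constructor
        · tauto
        · rintro ⟨h1, h2⟩
          exact ⟨⟨h1, fun h3 => h (h3 ▸ h2)⟩, h2⟩
      rw [this, add_zero]
  have h2 : ((insert y (D \ {x})) ∩ S).ncard = ((D \ {x}) ∩ S).ncard + (if y ∈ S then 1 else 0) := by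
    split_ifs with h
    · have : (insert y (D \ {x})) ∩ S = insert y ((D \ {x}) ∩ S) := by
        ext z
        simp only [mem_inter_iff, mem_insert_iff, mem_sdiff, mem_singleton_iff]
        constructor
        · tauto
        · rintro (rfl | h1)
          · exact ⟨Or.inl rfl, h⟩
          · tauto
      rw [this]
      refine Set.ncard_insert_of_notMem ?_ (hfin.subset ?_)
      · rintro ⟨⟨h1, _⟩, _⟩
        exact hy h1
      · exact Set.inter_subset_inter_left _ Set.sdiff_subset
    · have : (insert y (D \ {x})) ∩ S = (D \ {x}) ∩ S := by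
        ext z
        simp only [mem_inter_iff, mem_insert_iff, mem_sdiff, mem_singleton_iff]
        constructor
        · rintro ⟨rfl | h1, h2⟩
          · exact absurd h2 h
          · exact ⟨h1, h2⟩
        · tauto
      rw [this, add_zero]
  omega

theorem ncard_exch' [M.Finite] {D : Set α} (hD : D ⊆ M.E) {x y : α} (hx : x ∈ D)
    (hy : y ∉ D) (hyE : y ∈ M.E) : (insert y (D \ {x})).ncard = D.ncard := by
  classical
  have h := ncard_exch (M := M) hD subset_rfl hx hy hyE
  rw [if_pos (hD hx), if_pos hyE] at h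
  have h1 : insert y (D \ {x}) ⊆ M.E := by
    intro z hz
    rcases hz with rfl | hz
    · exact hyE
    · exact hD hz.1
  rw [Set.inter_eq_left.2 h1, Set.inter_eq_left.2 hD] at h
  omega

/-- **exchange for the necessary conditions** -/
theorem ok_exchange [M.Finite] {pos : α → ℕ} (hinj : Set.InjOn pos M.E) {B D : Set α} (hB : Ok M pos B)
    (hD : Ok M pos D) (hne : D ≠ B) :
    ∃ x ∈ D \ B, ∃ y ∈ B \ D, Ok M pos (insert y (D \ {x})) := by
  classical
  have hfB : B.Finite := M.set_finite B hB.sub
  have hfD : D.Finite := M.set_finite D hD.sub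
  have hcard : B.ncard = D.ncard := by rw [hB.card, hD.card]
  have hne1 : (D \ B).Nonempty := by
    rw [Set.nonempty_iff_ne_empty]
    intro h
    rw [Set.sdiff_eq_empty] at h
    exact hne (Set.eq_of_subset_of_ncard_le h hcard.le hfB)
  have hne2 : (B \ D).Nonempty := by
    rw [Set.nonempty_iff_ne_empty]
    intro h
    rw [Set.sdiff_eq_empty] at h
    exact hne (Set.eq_of_subset_of_ncard_le h hcard.ge hfD).symm
  obtain ⟨x, hx, hxmin⟩ := Set.exists_min_image (D \ B) pos (hfD.sdiff) hne1
  obtain ⟨y, hy, hymin⟩ := Set.exists_min_image (B \ D) pos (hfB.sdiff) hne2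
  refine ⟨x, hx, y, hy, ?_⟩
  have hxE : x ∈ M.E := hD.sub hx.1
  have hyE : y ∈ M.E := hB.sub hy.1
  have hxy : pos x ≠ pos y := by
    intro h
    have := hinj hxE hyE h
    exact hx.2 (this ▸ hy.1)
  have hsub : insert y (D \ {x}) ⊆ M.E := by
    intro z hz
    rcases hz with rfl | hz
    · exact hyE
    · exact hD.sub hz.1
  have hcardD : (insert y (D \ {x})).ncard = D.ncard := ncard_exch' hD.sub hx.1 hy.2 hyE
  refine ⟨hsub, by rw [hcardD, hD.card], fun k => ?_, fun k => ?_⟩
  · have h1 := ncard_exch (M := M) hD.sub (L_sub M pos k) hx.1 hy.2 hyE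
    have h2 := hD.low k
    by_cases hy' : y ∈ L M pos k
    · by_cases hx' : x ∈ L M pos k
      · rw [if_pos hx', if_pos hy'] at h1
        omega
      · rw [if_neg hx', if_pos hy'] at h1
        have h3 := hB.low k
        have h4 : D ∩ L M pos k ⊆ B ∩ L M pos k := by
          rintro z ⟨hz1, hz2⟩
          refine ⟨?_, hz2⟩
          by_contra hcon
          have h5 := hxmin z ⟨hz1, hcon⟩
          exact hx' ⟨hxE, lt_of_le_of_lt h5 hz2.2⟩
        have h5 : (D ∩ L M pos k).ncard < (B ∩ L M pos k).ncard := by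
          apply Set.ncard_lt_ncard _ (hfB.subset Set.inter_subset_left)
          refine ⟨h4, fun h6 => ?_⟩
          exact hy.2 (h6 ⟨hy.1, hy'⟩).1
        omega
    · rw [if_neg hy'] at h1
      omega
  · have h1 := ncard_exch (M := M) hD.sub (U_sub M pos k) hx.1 hy.2 hyE
    have h2 := hD.up k
    by_cases hy' : y ∈ U M pos k
    · by_cases hx' : x ∈ U M pos k
      · rw [if_pos hx', if_pos hy'] at h1
        omega
      · rw [if_neg hx', if_pos hy'] at h1
        have h3 := hB.up k
        have hxL : x ∈ L M pos k := ⟨hxE, by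
          by_contra hcon
          exact hx' ⟨hxE, not_lt.1 hcon⟩⟩
        have h4 : B ∩ L M pos k ⊆ D ∩ L M pos k := by
          rintro z ⟨hz1, hz2⟩
          refine ⟨?_, hz2⟩
          by_contra hcon
          have h5 := hymin z ⟨hz1, hcon⟩
          have h6 := hy'.2
          have h7 := hz2.2
          omega
        have h5 : (B ∩ L M pos k).ncard < (D ∩ L M pos k).ncard := by
          apply Set.ncard_lt_ncard _ (hfD.subset Set.inter_subset_left)
          refine ⟨h4, fun h6 => ?_⟩
          exact hx.2 (h6 ⟨hx.1, hxL⟩).1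
        have h6 := LU_ncard (M := M) pos k hB.sub
        have h7 := LU_ncard (M := M) pos k hD.sub
        omega
    · rw [if_neg hy'] at h1
      omega

/-- if one step of the exchange never leaves the bases, then the order property holds -/
theorem op_of_step [M.Finite] {pos : α → ℕ} (hinj : Set.InjOn pos M.E)
    (hstep : ∀ D, M.IsBase D → ∀ x ∈ D, ∀ y ∈ M.E, y ∉ D → Ok M pos (insert y (D \ {x})) →
      M.Indep (insert y (D \ {x}))) : OP M pos := by
  refine ⟨hinj, fun B hB => ?_⟩
  have hfB : B.Finite := M.set_finite B hB.sub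
  obtain ⟨D₀, hD₀⟩ := M.exists_isBase
  have key : ∀ n, ∀ D, M.IsBase D → (B \ D).ncard = n → M.IsBase B := by
    intro n
    induction n using Nat.strong_induction_on with
    | _ n ih =>
      intro D hD hn
      by_cases hDB : D = B
      · rw [← hDB]
        exact hD
      · obtain ⟨x, hx, y, hy, hok⟩ := ok_exchange hinj hB (ok_of_base hD) hDB
        have hind := hstep D hD x hx.1 y (hB.sub hy.1) hy.2 hok
        have hbase : M.IsBase (insert y (D \ {x})) := isBase_of hind (by rw [hok.card])
        refine ih _ ?_ _ hbase rfl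
        rw [← hn]
        apply Set.ncard_lt_ncard _ hfB.sdiff
        refine ⟨?_, ?_⟩
        · rintro z ⟨hz1, hz2⟩
          refine ⟨hz1, fun hz3 => hz2 (Or.inr ⟨hz3, ?_⟩)⟩
          rintro rfl
          exact hx.2 hz1
        · intro h
          exact (h hy).2 (Or.inl rfl)
  exact key _ D₀ hD₀ rfl

/-- **a circuit spans everything between two of its elements** -/
theorem mem_closure_of_between [M.Finite] {pos : α → ℕ} (hop : OP M pos) {C : Set α} (hC : M.IsCircuit C)
    {c1 c2 y : α} (h1 : c1 ∈ C) (h2 : c2 ∈ C) (hy : y ∈ M.E) (h1y : pos c1 < pos y)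
    (hy2 : pos y < pos c2) : y ∈ M.closure C := by
  classical
  by_contra hcon
  have hc12 : c1 ≠ c2 := by
    rintro rfl
    omega
  have hyC : y ∉ C := fun h => hcon (M.mem_closure_of_mem h hC.subset_ground)
  have hI : M.Indep (C \ {c1}) := hC.sdiff_singleton_indep h1
  have hcl : M.closure (C \ {c1}) = M.closure C := hC.closure_sdiff_singleton_eq c1
  have hI2 : M.Indep (insert y (C \ {c1})) := by
    rw [hI.insert_indep_iff_of_notMem (fun h => hyC h.1)]
    exact ⟨hy, by rw [hcl]; exact hcon⟩
  obtain ⟨B, hB, hsub⟩ := hI2.exists_isBase_superset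
  have hyB : y ∈ B := hsub (Or.inl rfl)
  have hCB : C \ {c1} ⊆ B := fun z hz => hsub (Or.inr hz)
  have hc1B : c1 ∉ B := by
    intro h
    apply hC.not_indep
    apply hB.indep.subset
    intro z hz
    by_cases hz1 : z = c1
    · rw [hz1]
      exact h
    · exact hCB ⟨hz, hz1⟩
  have hc1E : c1 ∈ M.E := hC.subset_ground h1
  have hc2B : c2 ∈ B := hCB ⟨h2, hc12.symm⟩
  -- first exchange
  have hnot : ¬ Ok M pos (insert c1 (B \ {y})) := by
    intro hok
    apply hC.not_indep
    apply (hop.2 _ hok).indep.subset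
    intro z hz
    by_cases hz1 : z = c1
    · exact Or.inl hz1
    · refine Or.inr ⟨hCB ⟨hz, hz1⟩, ?_⟩
      rintro rfl
      exact hyC hz
  have hokB := ok_of_base (pos := pos) hB
  have hsub' : insert c1 (B \ {y}) ⊆ M.E := by
    intro z hz
    rcases hz with rfl | hz
    · exact hc1E
    · exact hB.subset_ground hz.1
  have hex : ∃ k, rk M (L M pos k) < ((insert c1 (B \ {y})) ∩ L M pos k).ncard := by
    by_contra hcon2
    push Not at hcon2
    apply hnot
    refine ⟨hsub', ?_, hcon2, fun k => ?_⟩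
    · rw [ncard_exch' hB.subset_ground hyB hc1B hc1E]
      exact hokB.card
    · have e1 := ncard_exch (M := M) hB.subset_ground (U_sub M pos k) hyB hc1B hc1E
      have e2 := hokB.up k
      by_cases hc : c1 ∈ U M pos k
      · have hy' : y ∈ U M pos k := ⟨hy, hc.2.trans h1y.le⟩
        rw [if_pos hc, if_pos hy'] at e1
        omega
      · rw [if_neg hc] at e1
        omega
  obtain ⟨k, hk⟩ := hex
  have e1 := ncard_exch (M := M) hB.subset_ground (L_sub M pos k) hyB hc1B hc1E
  have e2 := hokB.low k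
  have hc1k : c1 ∈ L M pos k := by
    by_contra hc
    rw [if_neg hc] at e1
    omega
  have hyk : y ∉ L M pos k := by
    intro hc
    rw [if_pos hc, if_pos hc1k] at e1
    omega
  rw [if_pos hc1k, if_neg hyk] at e1
  have hc2k : c2 ∉ L M pos k := by
    intro hc
    exact hyk ⟨hy, hy2.trans hc.2⟩
  -- second exchange
  have hbase2 : M.Indep (insert c1 (B \ {c2})) := by
    by_contra hdep
    have hdep' : M.Dep (insert c1 (B \ {c2})) := ⟨hdep, by
      intro z hz
      rcases hz with rfl | hz
      · exact hc1E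
      · exact hB.subset_ground hz.1⟩
    obtain ⟨C', hC'sub, hC'⟩ := hdep'.exists_isCircuit_subset
    have hC1 : C ⊆ insert c1 B := by
      intro z hz
      by_cases hz1 : z = c1
      · exact Or.inl hz1
      · exact Or.inr (hCB ⟨hz, hz1⟩)
    have hC2 : C' ⊆ insert c1 B := hC'sub.trans (Set.insert_subset_insert Set.sdiff_subset)
    have h3 := hC.eq_fundCircuit_of_subset hB.indep hC1
    have h4 := hC'.eq_fundCircuit_of_subset hB.indep hC2
    have h5 : c2 ∈ C' := by
      rw [h4, ← h3]
      exact h2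
    rcases hC'sub h5 with h6 | h6
    · exact hc12 h6.symm
    · exact h6.2 rfl
  have e3 := ncard_le_rk (hbase2.subset (Set.inter_subset_left (t := L M pos k))) Set.inter_subset_right
  have e4 := ncard_exch (M := M) hB.subset_ground (L_sub M pos k) hc2B hc1B hc1E
  rw [if_neg hc2k, if_pos hc1k] at e4
  omega

end Pool.Agent.J4.H48.LPM
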