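import Pool.Agent.J4.H48.LPM.Basic

/-!
# Lattice path matroids: the connected case
-/

set_option autoImplicit false

namespace Pool.Agent.J4.H48.LPM

open Set

universe u

variable {α : Type u} {M : Matroid α}

/-- the flats `F` of `M ↾ K` such that every element of `F` different from `a` is in a common circuit with
`a` inside `F` -/
def Fam (M : Matroid α) (K : Set α) (a : α) (F : Set α) : Prop :=
  F ⊆ K ∧ a ∈ F ∧ (∀ y ∈ F, y ≠ a → ∃ C, M.IsCircuit C ∧ C ⊆ F ∧ a ∈ C ∧ y ∈ C) ∧
    ∀ C, M.IsCircuit C → C ⊆ K → ∀ x ∈ C, C \ {x} ⊆ F → x ∈ F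

/-- `B ∩ F` is dependent and spans `F` -/
def Catch (M : Matroid α) (B F : Set α) : Prop :=
  ¬ M.Indep (B ∩ F) ∧ ∀ y ∈ F, y ∉ B ∩ F → ∃ C, C ⊆ insert y (B ∩ F) ∧ M.IsCircuit C ∧ y ∈ C

/-- the condition for a connected matroid `M ↾ K` to be a lattice path matroid -/
def Good (M : Matroid α) (K : Set α) : Prop :=
  ∃ a ∈ K, ∃ b ∈ K,
    (∀ F F', Fam M K a F → Fam M K a F' → F ⊆ F' ∨ F' ⊆ F) ∧
    (∀ G G', Fam M K b G → Fam M K b G' → G ⊆ G' ∨ G' ⊆ G) ∧
    (∀ F G, Fam M K a F → Fam M K b G → Disjoint F G ∨ K ⊆ F ∪ G) ∧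
    ∀ D, M.IsBasis D K → ∀ x ∈ D, ∀ y ∈ K, y ∉ D → ¬ M.Indep (insert y (D \ {x})) →
      ∃ F, (Fam M K a F ∨ Fam M K b F) ∧ Catch M (insert y (D \ {x})) F

/-- separators -/
def Sep (M : Matroid α) (S : Set α) : Prop := ∀ C, M.IsCircuit C → C ⊆ S ∨ Disjoint C S

/-- there is no proper separator -/
def Conn (M : Matroid α) : Prop := ∀ S ⊆ M.E, S.Nonempty → Sep M S → S = M.E

theorem rk_lt_of_not_indep [M.Finite] {X : Set α} (hX : X ⊆ M.E) (h : ¬ M.Indep X) : rk M X < X.ncard := by
  obtain ⟨I, hI, hc⟩ := exists_basis hX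
  rw [← hc]
  apply Set.ncard_lt_ncard _ (M.set_finite X hX)
  refine ⟨hI.subset, fun h' => h ?_⟩
  rw [← subset_antisymm hI.subset h']
  exact hI.indep

theorem indep_of_rk [M.Finite] {X : Set α} (hX : X ⊆ M.E) (h : X.ncard ≤ rk M X) : M.Indep X := by
  by_contra hcon
  have := rk_lt_of_not_indep hX hcon
  omega

theorem rk_closure [M.Finite] (X : Set α) : rk M (M.closure X) = rk M X := by
  unfold rk
  rw [Matroid.eRk_closure_eq]

theorem catch_iff {B F : Set α} (hF : F ⊆ M.E) :
    Catch M B F ↔ ¬ M.Indep (B ∩ F) ∧ F ⊆ M.closure (B ∩ F) := by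
  unfold Catch
  refine and_congr_right fun _ => ?_
  constructor
  · intro h y hy
    by_cases hyB : y ∈ B ∩ F
    · exact M.mem_closure_of_mem hyB (Set.inter_subset_right.trans hF)
    · rw [Matroid.mem_closure_iff_exists_isCircuit hyB]
      exact h y hy hyB
  · intro h y hy hyB
    rw [← Matroid.mem_closure_iff_exists_isCircuit hyB]
    exact h hy

theorem catch_ncard [M.Finite] {B F : Set α} (hF : F ⊆ M.E) (h : Catch M B F) : rk M F < (B ∩ F).ncard := by
  rw [catch_iff hF] at h
  have h1 := rk_lt_of_not_indep (Set.inter_subset_right.trans hF) h.1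
  have h2 := rk_mono (M := M) h.2
  rw [rk_closure] at h2
  omega

theorem exists_L_of_down [M.Finite] {pos : α → ℕ} (hinj : Set.InjOn pos M.E) {F : Set α} (hF : F ⊆ M.E)
    (hdown : ∀ x ∈ F, ∀ y ∈ M.E, pos y < pos x → y ∈ F) : ∃ k, F = L M pos k := by
  rcases F.eq_empty_or_nonempty with rfl | hne
  · refine ⟨0, ?_⟩
    ext x
    simp [L]
  · obtain ⟨x, hx, hmax⟩ := Set.exists_max_image F pos (M.set_finite F hF) hne
    refine ⟨pos x + 1, ?_⟩
    ext y
    constructor
    · intro hy
      exact ⟨hF hy, Nat.lt_succ_of_le (hmax y hy)⟩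
    · rintro ⟨hy1, hy2⟩
      rcases Nat.lt_or_ge (pos y) (pos x) with h | h
      · exact hdown x hx y hy1 h
      · have : y = x := hinj hy1 (hF hx) (by omega)
        rw [this]
        exact hx

theorem compl_L (M : Matroid α) (pos : α → ℕ) (k : ℕ) : M.E \ L M pos k = U M pos k := by
  ext x
  constructor
  · rintro ⟨h1, h2⟩
    refine ⟨h1, ?_⟩
    by_contra hcon
    exact h2 ⟨h1, not_le.1 hcon⟩
  · rintro ⟨h1, h2⟩
    exact ⟨h1, fun h => absurd h.2 (not_lt.2 h2)⟩

/-- **sufficiency** -/
theorem op_of_good [M.Finite] (h : Good M M.E) : ∃ pos, OP M pos := by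
  classical
  obtain ⟨a, ha, b, hb, hFF, hGG, hFG, hcatch⟩ := h
  let 𝓒 : Set (Set α) := {S | Fam M M.E a S ∨ ∃ G, Fam M M.E b G ∧ S = M.E \ G}
  have h𝓒sub : ∀ S ∈ 𝓒, S ⊆ M.E := by
    rintro S (hS | ⟨G, _, rfl⟩)
    · exact hS.1
    · exact Set.sdiff_subset
  have h𝓒fin : 𝓒.Finite := by
    apply M.ground_finite.finite_subsets.subset
    intro S hS
    exact h𝓒sub S hS
  have hchain : ∀ S ∈ 𝓒, ∀ S' ∈ 𝓒, S ⊆ S' ∨ S' ⊆ S := by
    rintro S (hS | ⟨G, hG, rfl⟩) S' (hS' | ⟨G', hG', rfl⟩)
    · exact hFF S S' hS hS'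
    · rcases hFG S G' hS hG' with h | h
      · left
        intro x hx
        exact ⟨hS.1 hx, fun h' => Set.disjoint_left.1 h hx h'⟩
      · right
        rintro x ⟨hx1, hx2⟩
        rcases h hx1 with h' | h'
        · exact h'
        · exact absurd h' hx2
    · rcases hFG S' G hS' hG with h | h
      · right
        intro x hx
        exact ⟨hS'.1 hx, fun h' => Set.disjoint_left.1 h hx h'⟩
      · left
        rintro x ⟨hx1, hx2⟩
        rcases h hx1 with h' | h'
        · exact h'
        · exact absurd h' hx2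
    · rcases hGG G G' hG hG' with h | h
      · right
        exact Set.sdiff_subset_sdiff_right h
      · left
        exact Set.sdiff_subset_sdiff_right h
  obtain ⟨f, hf⟩ := Set.countable_iff_exists_injOn.1 M.ground_finite.countable
  obtain ⟨N, hN⟩ : ∃ N, ∀ x ∈ M.E, f x < N := by
    obtain ⟨N, hN⟩ := (M.ground_finite.image f).bddAbove
    exact ⟨N + 1, fun x hx => Nat.lt_succ_of_le (hN (Set.mem_image_of_mem f hx))⟩
  let ρ : α → ℕ := fun x => {S ∈ 𝓒 | x ∉ S}.ncard
  let pos : α → ℕ := fun x => ρ x * N + f x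
  have hρ : ∀ x ∈ M.E, ∀ y ∈ M.E, ρ x < ρ y → pos x < pos y := by
    intro x hx y hy hxy
    have h1 := hN x hx
    have h2 : (ρ x + 1) * N ≤ ρ y * N := Nat.mul_le_mul_right N hxy
    have h3 : (ρ x + 1) * N = ρ x * N + N := by ring
    show ρ x * N + f x < ρ y * N + f y
    omega
  have hinj : Set.InjOn pos M.E := by
    intro x hx y hy hxy
    rcases lt_trichotomy (ρ x) (ρ y) with h | h | h
    · exact absurd hxy (hρ x hx y hy h).ne
    · apply hf hx hy
      have hxy' : ρ x * N + f x = ρ y * N + f y := hxy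
      rw [h] at hxy'
      omega
    · exact absurd hxy (hρ y hy x hx h).ne'
  have hdown : ∀ S ∈ 𝓒, ∃ k, S = L M pos k := by
    intro S hS
    apply exists_L_of_down hinj (h𝓒sub S hS)
    intro x hx y hy hxy
    by_contra hcon
    have h1 : ρ x < ρ y := by
      apply Set.ncard_lt_ncard _ (h𝓒fin.subset (Set.sep_subset _ _))
      refine ⟨?_, fun h' => ?_⟩
      · rintro T ⟨hT1, hT2⟩
        refine ⟨hT1, fun hyT => ?_⟩
        rcases hchain S hS T hT1 with h | h
        · exact hT2 (h hx)
        · exact hcon (h hyT)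
      · exact (h' (show S ∈ {S ∈ 𝓒 | y ∉ S} from ⟨hS, hcon⟩)).2 hx
    have h2 := hρ x (h𝓒sub S hS hx) y hy h1
    omega
  refine ⟨pos, op_of_step hinj ?_⟩
  intro D hD x hx y hy hyD hok
  by_contra hnot
  obtain ⟨F, hF, hc⟩ := hcatch D (Matroid.isBasis_ground_iff.2 hD) x hx y hy hyD hnot
  rcases hF with hF | hF
  · obtain ⟨k, hk⟩ := hdown F (Or.inl hF)
    have h1 := catch_ncard hF.1 hc
    rw [hk] at h1
    have h2 := hok.low k
    omega
  · obtain ⟨k, hk⟩ := hdown (M.E \ F) (Or.inr ⟨F, hF, rfl⟩)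
    have h1 := catch_ncard hF.1 hc
    have h3 : F = U M pos k := by
      rw [← compl_L, ← hk, Set.sdiff_sdiff_cancel_left hF.1]
    rw [h3] at h1
    have h2 := hok.up k
    omega

theorem sep_of_rk [M.Finite] {S : Set α} (hS : S ⊆ M.E) (h : rk M S + rk M (M.E \ S) ≤ rk M M.E) : Sep M S := by
  intro C hC
  by_contra hcon
  push Not at hcon
  obtain ⟨h1, h2⟩ := hcon
  rw [Set.not_disjoint_iff] at h2
  rw [Set.not_subset] at h1
  obtain ⟨x, hx1, hx2⟩ := h1
  obtain ⟨y, hy1, hy2⟩ := h2
  have hI : M.Indep (C ∩ S) := hC.ssubset_indep ⟨Set.inter_subset_left, fun h => hx2 (h hx1).2⟩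
  have hJ : M.Indep (C \ S) := hC.ssubset_indep ⟨Set.sdiff_subset, fun h => (h hy1).2 hy2⟩
  obtain ⟨X, hX, hX'⟩ := hI.subset_isBasis_of_subset (Set.inter_subset_right : C ∩ S ⊆ S)
  obtain ⟨Y, hY, hY'⟩ := hJ.subset_isBasis_of_subset (show C \ S ⊆ M.E \ S from
    Set.sdiff_subset_sdiff_left hC.subset_ground)
  have h3 : (X ∪ Y).ncard ≤ rk M M.E := by
    refine (Set.ncard_union_le _ _).trans ?_
    rw [ncard_eq_rk hX, ncard_eq_rk hY]
    exact h
  have hXY : X ∪ Y ⊆ M.E := Set.union_subset hX.indep.subset_ground hY.indep.subset_ground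
  have h4 : M.E ⊆ M.closure (X ∪ Y) := by
    intro z hz
    by_cases hzS : z ∈ S
    · exact M.closure_subset_closure Set.subset_union_left (hX.subset_closure hzS)
    · exact M.closure_subset_closure Set.subset_union_right (hY.subset_closure ⟨hz, hzS⟩)
  have h5 : rk M M.E ≤ rk M (X ∪ Y) := by
    have := rk_mono (M := M) h4
    rwa [rk_closure] at this
  have h6 := indep_of_rk hXY (h3.trans h5)
  apply hC.not_indep
  apply h6.subset
  intro z hz
  by_cases hzS : z ∈ S
  · exact Or.inl (hX' ⟨hz, hzS⟩)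
  · exact Or.inr (hY' ⟨hz, hzS⟩)

/-- the greedy base -/
def BQ (M : Matroid α) (pos : α → ℕ) : Set α := {x ∈ M.E | x ∉ M.closure (L M pos (pos x))}

theorem bq_basis [M.Finite] {pos : α → ℕ} (hinj : Set.InjOn pos M.E) (k : ℕ) :
    M.IsBasis (BQ M pos ∩ L M pos k) (L M pos k) := by
  induction k with
  | zero =>
    have : L M pos 0 = ∅ := by
      ext x
      simp [L]
    rw [this, Set.inter_empty]
    exact M.empty_indep.isBasis_self
  | succ k ih =>
    by_cases hx : ∃ x ∈ M.E, pos x = k
    · obtain ⟨x, hxE, hxk⟩ := hx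
      have h1 : L M pos (k + 1) = insert x (L M pos k) := by
        ext y
        constructor
        · rintro ⟨hy1, hy2⟩
          rcases Nat.lt_or_ge (pos y) k with h | h
          · exact Or.inr ⟨hy1, h⟩
          · exact Or.inl (hinj hy1 hxE (by omega))
        · rintro (rfl | ⟨hy1, hy2⟩)
          · exact ⟨hxE, by omega⟩
          · exact ⟨hy1, by omega⟩
      by_cases hcl : x ∈ M.closure (L M pos k)
      · have h2 : BQ M pos ∩ L M pos (k + 1) = BQ M pos ∩ L M pos k := by
          rw [h1]
          ext y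
          constructor
          · rintro ⟨hy1, hy2⟩
            rcases hy2 with rfl | hy2
            · have := hy1.2
              rw [hxk] at this
              exact absurd hcl this
            · exact ⟨hy1, hy2⟩
          · rintro ⟨hy1, hy2⟩
            exact ⟨hy1, Or.inr hy2⟩
        rw [h2, h1, Matroid.isBasis_iff_indep_subset_closure]
        refine ⟨ih.indep, ih.subset.trans (Set.subset_insert _ _), ?_⟩
        rw [ih.closure_eq_closure]
        apply Set.insert_subset hcl
        exact M.subset_closure _ (L_sub M pos k)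
      · have h2 : BQ M pos ∩ L M pos (k + 1) = insert x (BQ M pos ∩ L M pos k) := by
          rw [h1]
          ext y
          constructor
          · rintro ⟨hy1, hy2⟩
            rcases hy2 with rfl | hy2
            · exact Or.inl rfl
            · exact Or.inr ⟨hy1, hy2⟩
          · rintro (rfl | ⟨hy1, hy2⟩)
            · refine ⟨⟨hxE, ?_⟩, Or.inl rfl⟩
              rw [hxk]
              exact hcl
            · exact ⟨hy1, Or.inr hy2⟩
        rw [h2, h1]
        apply ih.insert_isBasis_insert_of_notMem_closure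
        rw [ih.closure_eq_closure]
        exact hcl
    · have h1 : L M pos (k + 1) = L M pos k := by
        ext y
        constructor
        · rintro ⟨hy1, hy2⟩
          refine ⟨hy1, ?_⟩
          by_contra hcon
          exact hx ⟨y, hy1, by omega⟩
        · rintro ⟨hy1, hy2⟩
          exact ⟨hy1, by omega⟩
      rw [h1]
      exact ih

theorem exists_L_top [M.Finite] (pos : α → ℕ) : ∃ k, L M pos k = M.E := by
  obtain ⟨N, hN⟩ := (M.ground_finite.image pos).bddAbove
  refine ⟨N + 1, Set.Subset.antisymm (L_sub _ _ _) fun x hx => ⟨hx, Nat.lt_succ_of_le (hN (Set.mem_image_of_mem pos hx))⟩⟩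

theorem bq_base [M.Finite] {pos : α → ℕ} (hinj : Set.InjOn pos M.E) : M.IsBase (BQ M pos) := by
  obtain ⟨k, hk⟩ := exists_L_top (M := M) pos
  have h := bq_basis hinj k
  rw [hk, Set.inter_eq_left.2 (fun x hx => hx.1), Matroid.isBasis_ground_iff] at h
  exact h

theorem bq_exchange [M.Finite] {pos : α → ℕ} (hop : OP M pos) (hconn : Conn M) {t x : α}
    (ht : t ∈ BQ M pos) (hx : x ∈ M.E) (hxB : x ∉ BQ M pos) (htx : pos t < pos x) :
    M.IsBase (insert x (BQ M pos \ {t})) := by
  classical
  have hB := bq_base hop.1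
  have hokB := ok_of_base (pos := pos) hB
  apply hop.2
  refine ⟨?_, ?_, fun k => ?_, fun k => ?_⟩
  · intro z hz
    rcases hz with rfl | hz
    · exact hx
    · exact hz.1.1
  · rw [ncard_exch' hB.subset_ground ht hxB hx]
    exact hokB.card
  · have e1 := ncard_exch (M := M) hB.subset_ground (L_sub M pos k) ht hxB hx
    have e2 := hokB.low k
    by_cases hxk : x ∈ L M pos k
    · have htk : t ∈ L M pos k := ⟨ht.1, htx.trans hxk.2⟩
      rw [if_pos hxk, if_pos htk] at e1
      omega
    · rw [if_neg hxk] at e1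
      omega
  · have e1 := ncard_exch (M := M) hB.subset_ground (U_sub M pos k) ht hxB hx
    have e2 := hokB.up k
    by_cases hxk : x ∈ U M pos k
    · by_cases htk : t ∈ U M pos k
      · rw [if_pos hxk, if_pos htk] at e1
        omega
      · rw [if_pos hxk, if_neg htk] at e1
        have h1 : ¬ (rk M (L M pos k) + rk M (M.E \ L M pos k) ≤ rk M M.E) := by
          intro h
          have h2 := hconn _ (L_sub M pos k) ⟨t, ht.1, by
            by_contra hcon
            exact htk ⟨ht.1, not_lt.1 hcon⟩⟩ (sep_of_rk (L_sub M pos k) h)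
          have h3 : x ∈ L M pos k := by
            rw [h2]
            exact hx
          exact absurd h3.2 (not_lt.2 hxk.2)
        rw [compl_L] at h1
        have h2 := LU_ncard (M := M) pos k hB.subset_ground
        have h3 := ncard_eq_rk (bq_basis hop.1 k)
        rw [hokB.card] at h2
        omega
    · rw [if_neg hxk] at e1
      omega

/-- the fundamental circuits of the greedy base -/
theorem mem_fund [M.Finite] {pos : α → ℕ} (hop : OP M pos) (hconn : Conn M) {t x : α}
    (ht : t ∈ BQ M pos) (hxB : x ∉ BQ M pos) (htx : pos t < pos x) {C : Set α}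
    (hC : M.IsCircuit C) (hsub : C ⊆ insert x (BQ M pos)) (hxC : x ∈ C) : t ∈ C := by
  by_contra hcon
  have hb := bq_exchange hop hconn ht (hC.subset_ground hxC) hxB htx
  apply hC.not_indep
  apply hb.indep.subset
  intro z hz
  rcases hsub hz with rfl | hz'
  · exact Or.inl rfl
  · refine Or.inr ⟨hz', ?_⟩
    rintro rfl
    exact hcon hz

theorem fam_down [M.Finite] {pos : α → ℕ} (hop : OP M pos) {a : α}
    (hmin : ∀ x ∈ M.E, x ≠ a → pos a < pos x) {F : Set α} (hF : Fam M M.E a F) :
    ∀ x ∈ F, ∀ y ∈ M.E, pos y < pos x → y ∈ F := by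
  intro x hx y hy hyx
  obtain ⟨h1, h2, h3, h4⟩ := hF
  by_cases hya : y = a
  · rw [hya]
    exact h2
  · have hay := hmin y hy hya
    obtain ⟨C, hC, hCF, haC, hxC⟩ := h3 x hx (by rintro rfl; omega)
    have h5 := mem_closure_of_between hop hC haC hxC hy hay hyx
    by_cases hyC : y ∈ C
    · exact hCF hyC
    · obtain ⟨C', hC'1, hC'2, hC'3⟩ := (Matroid.mem_closure_iff_exists_isCircuit hyC).1 h5
      apply h4 C' hC'2 hC'2.subset_ground y hC'3
      rintro z ⟨hz1, hz2⟩
      rcases hC'1 hz1 with h6 | h6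
      · exact absurd h6 hz2
      · exact hCF h6

theorem exists_catch [M.Finite] {pos : α → ℕ} (hop : OP M pos) (hconn : Conn M) {a : α} (haE : a ∈ M.E)
    (hmin : ∀ x ∈ M.E, x ≠ a → pos a < pos x) {D : Set α} (hD : M.IsBase D) {x y : α} (hy : y ∈ M.E)
    {k : ℕ} (hk : rk M (L M pos k) < ((insert y (D \ {x})) ∩ L M pos k).ncard) :
    ∃ F, Fam M M.E a F ∧ Catch M (insert y (D \ {x})) F := by
  have hinj := hop.1
  have hB := bq_base (M := M) hinj
  set B := insert y (D \ {x}) with hBdef
  have hBE : B ⊆ M.E := by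
    intro z hz
    rcases hz with rfl | hz
    · exact hy
    · exact hD.subset_ground hz.1
  have hne : (L M pos k \ BQ M pos).Nonempty := by
    rw [Set.nonempty_iff_ne_empty]
    intro h
    rw [Set.sdiff_eq_empty] at h
    have h1 := ncard_le_rk (hB.indep.subset h) (subset_rfl (a := L M pos k))
    have h2 : (B ∩ L M pos k).ncard ≤ (L M pos k).ncard :=
      Set.ncard_le_ncard Set.inter_subset_right (M.set_finite _ (L_sub M pos k))
    omega
  obtain ⟨s, hs, hsmax⟩ := Set.exists_max_image _ pos
    ((M.set_finite _ (L_sub M pos k)).sdiff (t := BQ M pos)) hne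
  have hsE : s ∈ M.E := hs.1.1
  set k' := pos s + 1 with hk'
  have hk'k : k' ≤ k := hs.1.2
  have hLL : L M pos k' ⊆ L M pos k := fun z hz => ⟨hz.1, lt_of_lt_of_le hz.2 hk'k⟩
  have hT : L M pos k \ L M pos k' ⊆ BQ M pos := by
    rintro z ⟨hz1, hz2⟩
    by_contra hcon
    have h1 := hsmax z ⟨hz1, hcon⟩
    exact hz2 ⟨hz1.1, Nat.lt_succ_of_le h1⟩
  have hfinL := M.set_finite _ (L_sub M pos k)
  have hcount : rk M (L M pos k') < (B ∩ L M pos k').ncard := by
    have h1 : (B ∩ L M pos k).ncard ≤ (B ∩ L M pos k').ncard + (L M pos k \ L M pos k').ncard := by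
      refine le_trans (Set.ncard_le_ncard ?_ ?_) (Set.ncard_union_le _ _)
      · rintro z ⟨hz1, hz2⟩
        by_cases hz3 : z ∈ L M pos k'
        · exact Or.inl ⟨hz1, hz3⟩
        · exact Or.inr ⟨hz2, hz3⟩
      · exact (hfinL.subset (Set.inter_subset_right.trans hLL)).union hfinL.sdiff
    have h2 : (BQ M pos ∩ L M pos k).ncard =
        (BQ M pos ∩ L M pos k').ncard + (L M pos k \ L M pos k').ncard := by
      rw [← Set.ncard_union_eq _ (hfinL.subset (Set.inter_subset_right.trans hLL)) hfinL.sdiff]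
      · congr 1
        ext z
        constructor
        · rintro ⟨hz1, hz2⟩
          by_cases hz3 : z ∈ L M pos k'
          · exact Or.inl ⟨hz1, hz3⟩
          · exact Or.inr ⟨hz2, hz3⟩
        · rintro (⟨hz1, hz2⟩ | hz)
          · exact ⟨hz1, hLL hz2⟩
          · exact ⟨hT hz, hz.1⟩
      · rw [Set.disjoint_left]
        rintro z ⟨_, h1⟩ ⟨_, h2⟩
        exact h2 h1
    have h3 := ncard_eq_rk (bq_basis hinj k)
    have h4 := ncard_eq_rk (bq_basis hinj k')
    omega
  set J := BQ M pos ∩ L M pos k' with hJ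
  have hJb : M.IsBasis J (L M pos k') := bq_basis hinj k'
  have hclJ : M.closure J = M.closure (L M pos k') := hJb.closure_eq_closure
  have hsL : s ∈ L M pos k' := ⟨hsE, Nat.lt_succ_self _⟩
  have hLF : L M pos k' ⊆ M.closure (L M pos k') := M.subset_closure _ (L_sub M pos k')
  have haL : a ∈ L M pos k' := by
    refine ⟨haE, ?_⟩
    by_cases h : s = a
    · rw [hk', h]
      exact Nat.lt_succ_self _
    · exact (hmin s hsE h).trans (Nat.lt_succ_self _)
  refine ⟨M.closure (L M pos k'), ⟨M.closure_subset_ground _, hLF haL, ?_, ?_⟩, ?_⟩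
  · intro z hz hza
    have hzE : z ∈ M.E := M.closure_subset_ground _ hz
    -- `a` is in the greedy base
    have haB : a ∈ BQ M pos := by
      refine ⟨haE, fun hcon => ?_⟩
      have h0 : L M pos (pos a) = ∅ := by
        ext w
        constructor
        · rintro ⟨hw1, hw2⟩
          by_cases hwa : w = a
          · rw [hwa] at hw2
            exact absurd hw2 (lt_irrefl _)
          · have := hmin w hw1 hwa
            exact absurd hw2 (by omega)
        · exact fun h => absurd h (Set.notMem_empty _)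
      rw [h0] at hcon
      obtain ⟨C, hC1, hC2, hC3⟩ := (Matroid.mem_closure_iff_exists_isCircuit (Set.notMem_empty a)).1 hcon
      have hC4 : C = {a} := by
        apply Set.Subset.antisymm
        · intro w hw
          rcases hC1 hw with h | h
          · exact h
          · exact absurd h (Set.notMem_empty _)
        · intro w hw
          rw [Set.mem_singleton_iff] at hw
          rw [hw]
          exact hC3
      have hsep : Sep M {a} := by
        intro C' hC'
        by_cases h : a ∈ C'
        · left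
          rw [hC4] at hC2
          have := hC2.eq_of_subset_isCircuit hC' (Set.singleton_subset_iff.2 h)
          rw [← this]
        · right
          rw [Set.disjoint_singleton_right]
          exact h
      have := hconn {a} (Set.singleton_subset_iff.2 haE) ⟨a, rfl⟩ hsep
      rw [← this] at hzE
      exact hza hzE
    rw [← hclJ] at hz
    by_cases hzB : z ∈ BQ M pos
    · have hzJ : z ∈ J := by
        by_contra hcon
        have h1 : M.Indep (insert z J) := hB.indep.subset (Set.insert_subset hzB Set.inter_subset_left)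
        rw [hJb.indep.insert_indep_iff_of_notMem hcon] at h1
        exact h1.2 hz
      have hsJ : s ∉ J := fun h => hs.2 h.1
      have hscl : s ∈ M.closure J := by
        rw [hclJ]
        exact hLF hsL
      obtain ⟨C, hC1, hC2, hC3⟩ := (Matroid.mem_closure_iff_exists_isCircuit hsJ).1 hscl
      have hzs : pos z < pos s := by
        have h1 := hzJ.2.2
        have h2 : pos z ≠ pos s := fun h => hs.2 ((hinj hzE hsE h) ▸ hzB)
        omega
      have hsa : s ≠ a := fun h => hs.2 (h ▸ haB)
      have hsub : C ⊆ insert s (BQ M pos) := hC1.trans (Set.insert_subset_insert Set.inter_subset_left)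
      refine ⟨C, hC2, ?_, mem_fund hop hconn haB hs.2 (hmin s hsE hsa) hC2 hsub hC3,
        mem_fund hop hconn hzB hs.2 hzs hC2 hsub hC3⟩
      intro w hw
      rcases hC1 hw with rfl | hw
      · exact hLF hsL
      · exact hLF hw.2
    · have hzJ : z ∉ J := fun h => hzB h.1
      obtain ⟨C, hC1, hC2, hC3⟩ := (Matroid.mem_closure_iff_exists_isCircuit hzJ).1 hz
      have hsub : C ⊆ insert z (BQ M pos) := hC1.trans (Set.insert_subset_insert Set.inter_subset_left)
      refine ⟨C, hC2, ?_, mem_fund hop hconn haB hzB (hmin z hzE hza) hC2 hsub hC3, hC3⟩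
      intro w hw
      rcases hC1 hw with rfl | hw
      · rw [← hclJ]
        exact hz
      · exact hLF hw.2
  · intro C hC _ w hw hsub
    have h1 := hC.mem_closure_sdiff_singleton_of_mem hw
    have h2 := M.closure_subset_closure_of_subset_closure hsub
    exact h2 h1
  · rw [catch_iff (M.closure_subset_ground _)]
    have hsub1 : B ∩ L M pos k' ⊆ B ∩ M.closure (L M pos k') := Set.inter_subset_inter_right _ hLF
    constructor
    · intro hcon
      have h1 := ncard_le_rk (hcon.subset hsub1) (Set.inter_subset_right)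
      omega
    · have hDx : M.Indep ((D \ {x}) ∩ L M pos k') :=
        hD.indep.subset (Set.inter_subset_left.trans Set.sdiff_subset)
      have h1 : (B ∩ L M pos k').ncard ≤ ((D \ {x}) ∩ L M pos k').ncard + 1 := by
        refine le_trans (Set.ncard_le_ncard (t := insert y ((D \ {x}) ∩ L M pos k')) ?_ ?_)
          (Set.ncard_insert_le _ _)
        · rintro z ⟨hz1, hz2⟩
          rcases hz1 with rfl | hz1
          · exact Or.inl rfl
          · exact Or.inr ⟨hz1, hz2⟩
        · exact (M.set_finite _ (hDx.subset_ground)).insert y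
      have h2 := isBasis_of hDx Set.inter_subset_right (L_sub M pos k') (by omega)
      have h3 : M.closure (L M pos k') = M.closure ((D \ {x}) ∩ L M pos k') := h2.closure_eq_closure.symm
      rw [h3]
      apply M.closure_subset_closure
      rintro z ⟨hz1, hz2⟩
      refine ⟨Or.inr hz1, ?_⟩
      rw [← h3]
      exact hLF hz2

end Pool.Agent.J4.H48.LPM
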