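import Mathlib

/-!
# Lattice path matroids and the logic `MS_0`: the definitions
-/

set_option autoImplicit false

namespace Pool.Agent.J4.H48.LPM

universe u

/-- The number of North steps among the first `k` steps of the path `R` (`true` is a North step, `false` is an
East step), i.e. the second coordinate of the point reached after `k` steps. -/
def height {n : ℕ} (R : Fin n → Bool) (k : ℕ) : ℕ :=
  (Finset.univ.filter fun i : Fin n => (i : ℕ) < k ∧ R i = true).card

/-- `R` is a lattice path from `(0, 0)` to `(m, r)`: it has `m + r` steps, exactly `r` of which are North. -/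
def IsPath (m r : ℕ) (R : Fin (m + r) → Bool) : Prop :=
  (Finset.univ.filter fun i : Fin (m + r) => R i = true).card = r

/-- The path `P` never goes above the path `Q`. -/
def NeverAbove {n : ℕ} (P Q : Fin n → Bool) : Prop := ∀ k, height P k ≤ height Q k

/-- `M` is a lattice path matroid: there are lattice paths `P` and `Q` from `(0, 0)` to `(m, r)`, `P` never
going above `Q`, and a bijection `e` from the `m + r` indices of the steps to the ground set of `M` such that the
bases of `M` correspond to the sets of the indices of the North steps of the lattice paths `R` from `(0, 0)` to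
`(m, r)` between `P` and `Q`. -/
def IsLatticePathMatroid {α : Type u} (M : Matroid α) : Prop :=
  ∃ (m r : ℕ) (P Q : Fin (m + r) → Bool), IsPath m r P ∧ IsPath m r Q ∧ NeverAbove P Q ∧
    ∃ e : Fin (m + r) ≃ M.E, ∀ B : Set (Fin (m + r)),
      M.IsBase ((fun i => (e i : α)) '' B) ↔
        ∃ R : Fin (m + r) → Bool, IsPath m r R ∧ NeverAbove P R ∧ NeverAbove R Q ∧ B = {i | R i = true}

/-- The formulas of the logic `MS_0` whose free variables are among `n` variables (indexed by `Fin n`). A
quantifier binds the variable with index `0` of its body, the index of every other variable being one more in the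
body than outside. A sentence is an element of `Fml 0`. -/
inductive Fml : ℕ → Type
  /-- `Ind(X_i)` -/
  | ind {n : ℕ} (i : Fin n) : Fml n
  /-- `X_i ⊆ X_j` -/
  | sub {n : ℕ} (i j : Fin n) : Fml n
  /-- negation -/
  | neg {n : ℕ} (φ : Fml n) : Fml n
  /-- conjunction -/
  | conj {n : ℕ} (φ ψ : Fml n) : Fml n
  /-- disjunction -/
  | disj {n : ℕ} (φ ψ : Fml n) : Fml n
  /-- implication -/
  | impl {n : ℕ} (φ ψ : Fml n) : Fml n
  /-- universal quantifier -/
  | all {n : ℕ} (φ : Fml (n + 1)) : Fml n
  /-- existential quantifier -/
  | ex {n : ℕ} (φ : Fml (n + 1)) : Fml n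

/-- `Sat M φ v`: the formula `φ` holds in the matroid `M` if the variable with index `i` stands for the set
`v i`. The quantifiers range over the subsets of the ground set. -/
def Sat {α : Type u} (M : Matroid α) : {n : ℕ} → Fml n → (Fin n → Set α) → Prop
  | _, .ind i, v => M.Indep (v i)
  | _, .sub i j, v => v i ⊆ v j
  | _, .neg φ, v => ¬ Sat M φ v
  | _, .conj φ ψ, v => Sat M φ v ∧ Sat M ψ v
  | _, .disj φ ψ, v => Sat M φ v ∨ Sat M ψ v
  | _, .impl φ ψ, v => Sat M φ v → Sat M ψ v
  | _, .all φ, v => ∀ X : Set α, X ⊆ M.E → Sat M φ (Fin.cons X v)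
  | _, .ex φ, v => ∃ X : Set α, X ⊆ M.E ∧ Sat M φ (Fin.cons X v)

end Pool.Agent.J4.H48.LPM
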