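import Pool.Agent.J4.H48.LPM.Main

/-!
# The formula for lattice path matroids
-/

set_option autoImplicit false

namespace Pool.Agent.J4.H48.LPM

open Set

universe u

variable {α : Type u} {M : Matroid α} {n : ℕ}

namespace Fml

/-- `X_i` is empty -/
def emp (i : Fin n) : Fml n := all (sub i.succ 0)

/-- `X_i` has exactly one element -/
def sing (i : Fin n) : Fml n :=
  conj (neg (emp i)) (all (impl (sub 0 i.succ) (disj (emp 0) (sub i.succ 0))))

/-- for every element -/
def allE (φ : Fml (n + 1)) : Fml n := all (impl (sing 0) φ)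

/-- for some element -/
def exE (φ : Fml (n + 1)) : Fml n := ex (conj (sing 0) φ)

/-- `X_i` is a circuit -/
def circ (i : Fin n) : Fml n :=
  conj (neg (ind i)) (all (impl (sub 0 i.succ) (impl (neg (sub i.succ 0)) (ind 0))))

/-- `X_i` is a basis of `X_j` -/
def bas (i j : Fin n) : Fml n :=
  conj (ind i) (conj (sub i j)
    (all (impl (ind 0) (impl (sub i.succ 0) (impl (sub 0 j.succ) (sub 0 i.succ))))))

/-- `Fam M X_k a X_f`, where `X_i = {a}` -/
def fam (k i f : Fin n) : Fml n :=
  conj (sub f k) (conj (sub i f) (conj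
    (allE (impl (sub 0 f.succ) (impl (neg (sub 0 i.succ))
      (ex (conj (circ 0) (conj (sub 0 f.succ.succ) (conj (sub i.succ.succ 0) (sub (Fin.succ 0) 0))))))))
    (all (impl (circ 0) (impl (sub 0 k.succ) (allE (impl (sub 0 (Fin.succ 0))
      (impl (allE (impl (sub 0 (Fin.succ (Fin.succ 0)))
        (disj (sub 0 (Fin.succ 0)) (sub 0 f.succ.succ.succ))))
        (sub 0 f.succ.succ)))))))))

/-- the intersection of `X_b` and `X_f` is the set `X_i` -/
def inter (b f i : Fin n) : Fml n :=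
  conj (sub i b) (conj (sub i f) (all (impl (sub 0 b.succ) (impl (sub 0 f.succ) (sub 0 i.succ)))))

/-- `Catch M X_b X_f` -/
def catch_ (b f : Fin n) : Fml n :=
  ex (conj (inter b.succ f.succ 0) (conj (neg (ind 0))
    (allE (impl (sub 0 f.succ.succ) (impl (neg (sub 0 (Fin.succ 0)))
      (ex (conj (allE (impl (sub 0 (Fin.succ 0))
          (disj (sub 0 (Fin.succ (Fin.succ 0))) (sub 0 (Fin.succ (Fin.succ (Fin.succ 0)))))))
        (conj (circ 0) (sub (Fin.succ 0) 0)))))))))

end Fml

open Fml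

theorem sat_emp (i : Fin n) (v : Fin n → Set α) : Sat M (emp i) v ↔ v i = ∅ := by
  simp only [emp, Sat, Fin.cons_zero, Fin.cons_succ]
  constructor
  · intro h
    exact Set.subset_empty_iff.1 (h ∅ (Set.empty_subset _))
  · intro h X _
    rw [h]
    exact Set.empty_subset _

theorem sat_sing (i : Fin n) (v : Fin n → Set α) (hv : v i ⊆ M.E) :
    Sat M (sing i) v ↔ ∃ x ∈ M.E, v i = {x} := by
  simp only [sing, Sat, sat_emp, Fin.cons_zero, Fin.cons_succ]
  constructor
  · rintro ⟨h1, h2⟩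
    obtain ⟨x, hx⟩ := Set.nonempty_iff_ne_empty.2 h1
    refine ⟨x, hv hx, ?_⟩
    have h3 := h2 {x} (Set.singleton_subset_iff.2 (hv hx)) (Set.singleton_subset_iff.2 hx)
    rcases h3 with h3 | h3
    · exact absurd h3 (Set.singleton_ne_empty x)
    · exact subset_antisymm h3 (Set.singleton_subset_iff.2 hx)
  · rintro ⟨x, hx, hvx⟩
    rw [hvx]
    refine ⟨Set.singleton_ne_empty x, fun X _ hX => ?_⟩
    rcases Set.subset_singleton_iff_eq.1 hX with h | h
    · exact Or.inl h
    · exact Or.inr h.ge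

theorem sat_allE (φ : Fml (n + 1)) (v : Fin n → Set α) :
    Sat M (allE φ) v ↔ ∀ x ∈ M.E, Sat M φ (Fin.cons {x} v) := by
  simp only [allE, Sat]
  constructor
  · intro h x hx
    have hx' : (Fin.cons {x} v : Fin (n + 1) → Set α) 0 ⊆ M.E := Set.singleton_subset_iff.2 hx
    exact h {x} (Set.singleton_subset_iff.2 hx) ((sat_sing 0 _ hx').2 ⟨x, hx, rfl⟩)
  · intro h X hX hs
    obtain ⟨x, hx, hxX⟩ := (sat_sing 0 _ hX).1 hs
    rw [Fin.cons_zero] at hxX
    rw [hxX]
    exact h x hx

theorem sat_exE (φ : Fml (n + 1)) (v : Fin n → Set α) :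
    Sat M (exE φ) v ↔ ∃ x ∈ M.E, Sat M φ (Fin.cons {x} v) := by
  simp only [exE, Sat]
  constructor
  · rintro ⟨X, hX, hs, h⟩
    obtain ⟨x, hx, hxX⟩ := (sat_sing 0 _ hX).1 hs
    rw [Fin.cons_zero] at hxX
    rw [hxX] at h
    exact ⟨x, hx, h⟩
  · rintro ⟨x, hx, h⟩
    have hx' : (Fin.cons {x} v : Fin (n + 1) → Set α) 0 ⊆ M.E := Set.singleton_subset_iff.2 hx
    exact ⟨{x}, Set.singleton_subset_iff.2 hx, (sat_sing 0 _ hx').2 ⟨x, hx, rfl⟩, h⟩

theorem sat_circ (i : Fin n) (v : Fin n → Set α) (hv : v i ⊆ M.E) :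
    Sat M (circ i) v ↔ M.IsCircuit (v i) := by
  simp only [circ, Sat, Fin.cons_zero, Fin.cons_succ]
  constructor
  · rintro ⟨h1, h2⟩
    rw [Matroid.isCircuit_iff_forall_ssubset]
    refine ⟨⟨h1, hv⟩, fun I hI => ?_⟩
    exact h2 I (hI.subset.trans hv) hI.subset hI.not_subset
  · intro h
    refine ⟨h.not_indep, fun X _ hX1 hX2 => ?_⟩
    exact h.ssubset_indep ⟨hX1, hX2⟩

theorem sat_bas (i j : Fin n) (v : Fin n → Set α) (hj : v j ⊆ M.E) :
    Sat M (bas i j) v ↔ M.IsBasis (v i) (v j) := by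
  simp only [bas, Sat, Fin.cons_zero, Fin.cons_succ]
  constructor
  · rintro ⟨h1, h2, h3⟩
    exact h1.isBasis_of_forall_insert h2 (fun e he => by
      rw [← Matroid.not_indep_iff (Set.insert_subset (hj he.1) (h2.trans hj))]
      intro hcon
      have h4 := h3 (insert e (v i)) hcon.subset_ground hcon (Set.subset_insert _ _)
        (Set.insert_subset he.1 h2)
      exact he.2 (h4 (Set.mem_insert _ _)))
  · intro h
    refine ⟨h.indep, h.subset, fun X _ hX1 hX2 hX3 => ?_⟩
    exact (h.eq_of_subset_indep hX1 hX2 hX3).ge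


theorem sat_fam (k i f : Fin n) (v : Fin n → Set α) {a : α} (ha : v i = {a}) (hk : v k ⊆ M.E) :
    Sat M (fam k i f) v ↔ Fam M (v k) a (v f) := by
  simp only [fam, Sat, sat_allE, Fin.cons_zero, Fin.cons_succ, Set.singleton_subset_iff, ha,
    Set.mem_singleton_iff]
  unfold Fam
  refine and_congr_right fun hfk => and_congr_right fun haf => and_congr ?_ ?_
  · constructor
    · intro h y hy hya
      obtain ⟨C, hCE, hC, h1, h2, h3⟩ := h y (hk (hfk hy)) hy hya
      exact ⟨C, (sat_circ 0 _ (by exact hCE)).1 hC, h1, h2, h3⟩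
    · intro h y _ hy hya
      obtain ⟨C, hC, h1, h2, h3⟩ := h y hy hya
      exact ⟨C, hC.subset_ground,
        (sat_circ 0 _ (by exact hC.subset_ground)).2 hC, h1, h2, h3⟩
  · constructor
    · intro h C hC hCK x hx hCF
      refine h C hC.subset_ground
        ((sat_circ 0 _ (by exact hC.subset_ground)).2 hC)
        hCK x (hC.subset_ground hx) hx ?_
      intro z _ hz
      by_cases hzx : z = x
      · exact Or.inl hzx
      · exact Or.inr (hCF ⟨hz, hzx⟩)
    · intro h C hCE hC hCK x hxE hx hz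
      refine h C ((sat_circ 0 _ (by exact hCE)).1 hC) hCK x hx ?_
      rintro z ⟨hz1, hz2⟩
      rcases hz z (hCE hz1) hz1 with h1 | h1
      · exact absurd h1 hz2
      · exact h1

theorem sat_inter (b f i : Fin n) (v : Fin n → Set α) (hb : v b ⊆ M.E) :
    Sat M (inter b f i) v ↔ v i = v b ∩ v f := by
  simp only [inter, Sat, Fin.cons_zero, Fin.cons_succ]
  constructor
  · rintro ⟨h1, h2, h3⟩
    apply subset_antisymm (Set.subset_inter h1 h2)
    exact h3 _ (Set.inter_subset_left.trans hb) Set.inter_subset_left Set.inter_subset_right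
  · intro h
    rw [h]
    exact ⟨Set.inter_subset_left, Set.inter_subset_right, fun X _ h1 h2 => Set.subset_inter h1 h2⟩

theorem sat_catch (b f : Fin n) (v : Fin n → Set α) (hb : v b ⊆ M.E) (hf : v f ⊆ M.E) :
    Sat M (catch_ b f) v ↔ Catch M (v b) (v f) := by
  simp only [catch_, Sat, sat_allE, Fin.cons_zero, Fin.cons_succ, Set.singleton_subset_iff,
    Set.mem_singleton_iff]
  unfold Catch
  constructor
  · rintro ⟨I, hIE, hI, h1, h2⟩
    have hI' := (sat_inter _ _ _ (Fin.cons I v) (by exact hb)).1 hI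
    simp only [Fin.cons_zero, Fin.cons_succ] at hI'
    subst hI'
    refine ⟨h1, fun y hy hyI => ?_⟩
    obtain ⟨C, hCE, h3, h4, h5⟩ := h2 y (hf hy) hy hyI
    refine ⟨C, ?_, (sat_circ 0 _ (by exact hCE)).1 h4, h5⟩
    intro z hz
    exact h3 z (hCE hz) hz
  · rintro ⟨h1, h2⟩
    refine ⟨v b ∩ v f, Set.inter_subset_left.trans hb, ?_, h1, ?_⟩
    · exact (sat_inter _ _ _ (Fin.cons _ v) (by exact hb)).2 rfl
    · intro y hyE hy hyI
      obtain ⟨C, h3, h4, h5⟩ := h2 y hy hyI
      refine ⟨C, h4.subset_ground, ?_,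
        (sat_circ 0 _ (by exact h4.subset_ground)).2 h4, h5⟩
      intro z _ hz
      exact h3 hz

namespace Fml

/-- any two members of `Fam M X_k a` are comparable, where `X_i = {a}` -/
def chain (k i : Fin n) : Fml n :=
  all (all (impl (fam k.succ.succ i.succ.succ (Fin.succ 0)) (impl (fam k.succ.succ i.succ.succ 0)
    (disj (sub (Fin.succ 0) 0) (sub 0 (Fin.succ 0))))))

/-- any member of `Fam M X_k a` and any member of `Fam M X_k b` are disjoint or cover `X_k`, where `X_i = {a}`
and `X_j = {b}` -/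
def cross (k i j : Fin n) : Fml n :=
  all (all (impl (fam k.succ.succ i.succ.succ (Fin.succ 0)) (impl (fam k.succ.succ j.succ.succ 0)
    (disj (allE (impl (sub 0 (Fin.succ (Fin.succ 0))) (neg (sub 0 (Fin.succ 0)))))
      (allE (impl (sub 0 k.succ.succ.succ) (disj (sub 0 (Fin.succ (Fin.succ 0))) (sub 0 (Fin.succ 0)))))))))

/-- `X_b = insert y (X_d - x)`, where `X_i = {x}` and `X_j = {y}` -/
def exch (d i j b : Fin n) : Fml n :=
  allE (conj (impl (sub 0 b.succ) (disj (sub 0 j.succ) (conj (sub 0 d.succ) (neg (sub 0 i.succ)))))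
    (impl (disj (sub 0 j.succ) (conj (sub 0 d.succ) (neg (sub 0 i.succ)))) (sub 0 b.succ)))

/-- the last condition of `Good M X_k`, where `X_i = {a}` and `X_j = {b}` -/
def catcher (k i j : Fin n) : Fml n :=
  all (impl (bas 0 k.succ) (allE (impl (sub 0 (Fin.succ 0)) (allE (impl (sub 0 k.succ.succ.succ)
    (impl (neg (sub 0 (Fin.succ (Fin.succ 0))))
      (all (impl (exch (Fin.succ (Fin.succ (Fin.succ 0))) (Fin.succ (Fin.succ 0)) (Fin.succ 0) 0)
        (impl (neg (ind 0))
          (ex (conj (disj (fam k.succ.succ.succ.succ.succ i.succ.succ.succ.succ.succ 0)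
              (fam k.succ.succ.succ.succ.succ j.succ.succ.succ.succ.succ 0))
            (catch_ (Fin.succ 0) 0))))))))))))

/-- `Good M X_k` -/
def good (k : Fin n) : Fml n :=
  exE (conj (sub 0 k.succ) (exE (conj (sub 0 k.succ.succ)
    (conj (chain k.succ.succ (Fin.succ 0)) (conj (chain k.succ.succ 0)
      (conj (cross k.succ.succ (Fin.succ 0) 0) (catcher k.succ.succ (Fin.succ 0) 0)))))))

/-- `X_i` is a separator -/
def sep (i : Fin n) : Fml n :=
  all (impl (circ 0) (disj (sub 0 i.succ) (allE (impl (sub 0 (Fin.succ 0)) (neg (sub 0 i.succ.succ))))))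

/-- `X_i` is a connected component -/
def comp (i : Fin n) : Fml n :=
  conj (neg (emp i)) (conj (sep i)
    (all (impl (sub 0 i.succ) (impl (neg (emp 0)) (impl (sep 0) (sub i.succ 0))))))

/-- the sentence that characterises the lattice path matroids -/
def lpm : Fml 0 := all (impl (comp 0) (good 0))

end Fml

theorem sat_chain (k i : Fin n) (v : Fin n → Set α) {a : α} (ha : v i = {a}) (hk : v k ⊆ M.E) :
    Sat M (chain k i) v ↔ ∀ F F', Fam M (v k) a F → Fam M (v k) a F' → F ⊆ F' ∨ F' ⊆ F := by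
  have hf : ∀ (F F' : Set α) (f : Fin (n + 2)),
      Sat M (fam k.succ.succ i.succ.succ f) (Fin.cons F' (Fin.cons F v)) ↔
        Fam M (v k) a ((Fin.cons F' (Fin.cons F v) : Fin (n + 2) → Set α) f) := by
    intro F F' f
    have h := sat_fam (M := M) k.succ.succ i.succ.succ f (Fin.cons F' (Fin.cons F v)) (a := a)
      (by exact ha) (by exact hk)
    exact h
  simp only [chain, Sat, hf, Fin.cons_zero, Fin.cons_succ]
  constructor
  · intro h F F' hF hF'
    exact h F (hF.1.trans hk) F' (hF'.1.trans hk) hF hF'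
  · intro h F _ F' _
    exact h F F'

theorem sat_cross (k i j : Fin n) (v : Fin n → Set α) {a b : α} (ha : v i = {a}) (hb : v j = {b})
    (hk : v k ⊆ M.E) :
    Sat M (cross k i j) v ↔
      ∀ F G, Fam M (v k) a F → Fam M (v k) b G → Disjoint F G ∨ v k ⊆ F ∪ G := by
  have hf : ∀ (F F' : Set α) (f : Fin (n + 2)),
      Sat M (fam k.succ.succ i.succ.succ f) (Fin.cons F' (Fin.cons F v)) ↔
        Fam M (v k) a ((Fin.cons F' (Fin.cons F v) : Fin (n + 2) → Set α) f) := by
    intro F F' f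
    have h := sat_fam (M := M) k.succ.succ i.succ.succ f (Fin.cons F' (Fin.cons F v)) (a := a)
      (by exact ha) (by exact hk)
    exact h
  have hg : ∀ (F F' : Set α) (f : Fin (n + 2)),
      Sat M (fam k.succ.succ j.succ.succ f) (Fin.cons F' (Fin.cons F v)) ↔
        Fam M (v k) b ((Fin.cons F' (Fin.cons F v) : Fin (n + 2) → Set α) f) := by
    intro F F' f
    have h := sat_fam (M := M) k.succ.succ j.succ.succ f (Fin.cons F' (Fin.cons F v)) (a := b)
      (by exact hb) (by exact hk)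
    exact h
  simp only [cross, Sat, hf, hg, sat_allE, Fin.cons_zero, Fin.cons_succ, Set.singleton_subset_iff]
  constructor
  · intro h F G hF hG
    rcases h F (hF.1.trans hk) G (hG.1.trans hk) hF hG with h1 | h1
    · left
      rw [Set.disjoint_left]
      intro x hx
      exact h1 x (hk (hF.1 hx)) hx
    · right
      intro x hx
      exact h1 x (hk hx) hx
  · intro h F _ G _ hF hG
    rcases h F G hF hG with h1 | h1
    · left
      intro x _ hx
      exact Set.disjoint_left.1 h1 hx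
    · right
      intro x _ hx
      exact h1 hx

theorem sat_exch (d i j b : Fin n) (v : Fin n → Set α) {x y : α} (hx : v i = {x}) (hy : v j = {y})
    (hyE : y ∈ M.E) (hd : v d ⊆ M.E) (hb : v b ⊆ M.E) :
    Sat M (exch d i j b) v ↔ v b = insert y (v d \ {x}) := by
  simp only [exch, Sat, sat_allE, Fin.cons_zero, Fin.cons_succ, Set.singleton_subset_iff, hx, hy,
    Set.mem_singleton_iff]
  constructor
  · intro h
    ext z
    constructor
    · intro hz
      exact (h z (hb hz)).1 hz
    · rintro (rfl | hz)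
      · exact (h z hyE).2 (Or.inl rfl)
      · exact (h z (hd hz.1)).2 (Or.inr hz)
  · intro h z _
    rw [h]
    exact ⟨fun h => h, fun h => h⟩

theorem sat_catcher (k i j : Fin n) (v : Fin n → Set α) {a b : α} (ha : v i = {a}) (hb : v j = {b})
    (hk : v k ⊆ M.E) :
    Sat M (catcher k i j) v ↔
      ∀ D, M.IsBasis D (v k) → ∀ x ∈ D, ∀ y ∈ v k, y ∉ D → ¬ M.Indep (insert y (D \ {x})) →
        ∃ F, (Fam M (v k) a F ∨ Fam M (v k) b F) ∧ Catch M (insert y (D \ {x})) F := by
  simp only [catcher, Sat, sat_allE]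
  constructor
  · intro h D hD x hx y hy hyD hind
    have hDE : D ⊆ M.E := hD.indep.subset_ground
    have hBE : insert y (D \ {x}) ⊆ M.E := Set.insert_subset (hk hy) (Set.sdiff_subset.trans hDE)
    obtain ⟨F, hFE, h1, h2⟩ := h D hDE ((sat_bas _ _ _ (by exact hk)).2 (by exact hD)) x (hDE hx)
      (Set.singleton_subset_iff.2 hx) y (hk hy) (Set.singleton_subset_iff.2 hy)
      (fun h => hyD (Set.singleton_subset_iff.1 h)) (insert y (D \ {x})) hBE
      ((sat_exch _ _ _ _ _ (by rfl) (by rfl) (hk hy) (by exact hDE) (by exact hBE)).2 rfl) hind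
    refine ⟨F, ?_, (sat_catch _ _ _ (by exact hBE) (by exact hFE)).1 h2⟩
    rcases h1 with h1 | h1
    · exact Or.inl ((sat_fam _ _ _ _ (by exact ha) (by exact hk)).1 h1)
    · exact Or.inr ((sat_fam _ _ _ _ (by exact hb) (by exact hk)).1 h1)
  · intro h D hDE hD x hxE hx y hyE hy hyD B hBE hB hind
    have hD' : M.IsBasis D (v k) := (sat_bas _ _ _ (by exact hk)).1 hD
    have hB' : B = insert y (D \ {x}) :=
      (sat_exch _ _ _ _ _ (by rfl) (by rfl) hyE (by exact hDE) (by exact hBE)).1 hB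
    subst hB'
    obtain ⟨F, h1, h2⟩ := h D hD' x (Set.singleton_subset_iff.1 hx) y (Set.singleton_subset_iff.1 hy)
      (fun h => hyD (Set.singleton_subset_iff.2 h)) hind
    have hFE : F ⊆ M.E := by
      rcases h1 with h1 | h1
      · exact h1.1.trans hk
      · exact h1.1.trans hk
    refine ⟨F, hFE, ?_, (sat_catch _ _ _ (by exact hBE) (by exact hFE)).2 (by exact h2)⟩
    rcases h1 with h1 | h1
    · exact Or.inl ((sat_fam _ _ _ _ (by exact ha) (by exact hk)).2 h1)
    · exact Or.inr ((sat_fam _ _ _ _ (by exact hb) (by exact hk)).2 h1)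

theorem sat_good (k : Fin n) (v : Fin n → Set α) (hk : v k ⊆ M.E) :
    Sat M (good k) v ↔ Good M (v k) := by
  simp only [good, Sat, sat_exE, Fin.cons_zero, Fin.cons_succ, Set.singleton_subset_iff]
  unfold Good
  have hc1 : ∀ a b, Sat M (chain k.succ.succ (Fin.succ 0)) (Fin.cons {b} (Fin.cons {a} v)) ↔
      ∀ F F', Fam M (v k) a F → Fam M (v k) a F' → F ⊆ F' ∨ F' ⊆ F := fun a b =>
    sat_chain k.succ.succ (Fin.succ 0) (Fin.cons {b} (Fin.cons {a} v)) (a := a) rfl hk
  have hc2 : ∀ a b, Sat M (chain k.succ.succ 0) (Fin.cons {b} (Fin.cons {a} v)) ↔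
      ∀ F F', Fam M (v k) b F → Fam M (v k) b F' → F ⊆ F' ∨ F' ⊆ F := fun a b =>
    sat_chain k.succ.succ 0 (Fin.cons {b} (Fin.cons {a} v)) (a := b) rfl hk
  have hc3 : ∀ a b, Sat M (cross k.succ.succ (Fin.succ 0) 0) (Fin.cons {b} (Fin.cons {a} v)) ↔
      ∀ F G, Fam M (v k) a F → Fam M (v k) b G → Disjoint F G ∨ v k ⊆ F ∪ G := fun a b =>
    sat_cross k.succ.succ (Fin.succ 0) 0 (Fin.cons {b} (Fin.cons {a} v)) (a := a) (b := b) rfl rfl hk
  have hc4 : ∀ a b, Sat M (catcher k.succ.succ (Fin.succ 0) 0) (Fin.cons {b} (Fin.cons {a} v)) ↔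
      ∀ D, M.IsBasis D (v k) → ∀ x ∈ D, ∀ y ∈ v k, y ∉ D → ¬ M.Indep (insert y (D \ {x})) →
        ∃ F, (Fam M (v k) a F ∨ Fam M (v k) b F) ∧ Catch M (insert y (D \ {x})) F := fun a b =>
    sat_catcher k.succ.succ (Fin.succ 0) 0 (Fin.cons {b} (Fin.cons {a} v)) (a := a) (b := b) rfl rfl hk
  simp only [hc1, hc2, hc3, hc4]
  constructor
  · rintro ⟨a, haE, ha, b, hbE, hb, h1, h2, h3, h4⟩
    exact ⟨a, ha, b, hb, h1, h2, h3, h4⟩
  · rintro ⟨a, ha, b, hb, h1, h2, h3, h4⟩
    exact ⟨a, hk ha, ha, b, hk hb, hb, h1, h2, h3, h4⟩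

theorem sat_sep (i : Fin n) (v : Fin n → Set α) : Sat M (sep i) v ↔ Sep M (v i) := by
  simp only [sep, Sat, sat_allE, Fin.cons_zero, Fin.cons_succ, Set.singleton_subset_iff]
  unfold Sep
  constructor
  · intro h C hC
    rcases h C hC.subset_ground ((sat_circ _ _ (by exact hC.subset_ground)).2 hC) with h1 | h1
    · exact Or.inl h1
    · right
      rw [Set.disjoint_left]
      intro x hx
      exact h1 x (hC.subset_ground hx) hx
  · intro h C hCE hC
    rcases h C ((sat_circ _ _ (by exact hCE)).1 hC) with h1 | h1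
    · exact Or.inl h1
    · right
      intro x _ hx
      exact Set.disjoint_left.1 h1 hx

theorem sat_comp (i : Fin n) (v : Fin n → Set α) (hi : v i ⊆ M.E) :
    Sat M (comp i) v ↔ Comp M (v i) := by
  simp only [comp, Sat, sat_emp, sat_sep, Fin.cons_zero, Fin.cons_succ]
  unfold Comp
  rw [← ne_eq, ← Set.nonempty_iff_ne_empty]
  refine and_congr_right fun _ => and_congr_right fun _ => ?_
  constructor
  · intro h S hS hSne hSsep
    exact h S (hS.trans hi) hS hSne.ne_empty hSsep
  · intro h S _ hS hSne hSsep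
    exact h S hS (Set.nonempty_iff_ne_empty.2 hSne) hSsep

/-- **the sentence characterises the lattice path matroids** -/
theorem sat_lpm [M.Finite] (v : Fin 0 → Set α) : Sat M lpm v ↔ IsLatticePathMatroid M := by
  rw [lpm_iff]
  simp only [lpm, Sat]
  constructor
  · intro h K hK hcomp
    exact (sat_good _ _ (by exact hK)).1 (h K hK ((sat_comp _ _ (by exact hK)).2 hcomp))
  · intro h K hK hcomp
    exact (sat_good _ _ (by exact hK)).2 (h K hK ((sat_comp _ _ (by exact hK)).1 hcomp))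

end Pool.Agent.J4.H48.LPM
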