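import Pool.Agent.J4.H48.LPM.Paths

/-!
# Lattice path matroids: the structural characterization
-/

set_option autoImplicit false

namespace Pool.Agent.J4.H48.LPM

open Set
open scoped Matroid

universe u

variable {α : Type u} {M : Matroid α}

/-- `K` is a connected component: a minimal nonempty separator -/
def Comp (M : Matroid α) (K : Set α) : Prop :=
  K.Nonempty ∧ Sep M K ∧ ∀ S, S ⊆ K → S.Nonempty → Sep M S → K ⊆ S

theorem circ_restrict {R : Set α} (hR : R ⊆ M.E) {C : Set α} :
    (M ↾ R).IsCircuit C ↔ M.IsCircuit C ∧ C ⊆ R := Matroid.restrict_isCircuit_iff hR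

theorem fam_restrict {R K F : Set α} {a : α} (hR : R ⊆ M.E) (hK : K ⊆ R) :
    Fam (M ↾ R) K a F ↔ Fam M K a F := by
  unfold Fam
  constructor
  · rintro ⟨h1, h2, h3, h4⟩
    refine ⟨h1, h2, fun y hy hya => ?_, fun C hC hCK x hx hCF => ?_⟩
    · obtain ⟨C, hC, hC1, hC2, hC3⟩ := h3 y hy hya
      exact ⟨C, ((circ_restrict hR).1 hC).1, hC1, hC2, hC3⟩
    · exact h4 C ((circ_restrict hR).2 ⟨hC, hCK.trans hK⟩) hCK x hx hCF
  · rintro ⟨h1, h2, h3, h4⟩
    refine ⟨h1, h2, fun y hy hya => ?_, fun C hC hCK x hx hCF => ?_⟩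
    · obtain ⟨C, hC, hC1, hC2, hC3⟩ := h3 y hy hya
      exact ⟨C, (circ_restrict hR).2 ⟨hC, hC1.trans (h1.trans hK)⟩, hC1, hC2, hC3⟩
    · exact h4 C ((circ_restrict hR).1 hC).1 hCK x hx hCF

theorem catch_restrict {R B F : Set α} (hR : R ⊆ M.E) (hF : F ⊆ R) :
    Catch (M ↾ R) B F ↔ Catch M B F := by
  unfold Catch
  rw [Matroid.restrict_indep_iff]
  have h0 : B ∩ F ⊆ R := Set.inter_subset_right.trans hF
  constructor
  · rintro ⟨h1, h2⟩
    refine ⟨fun h => h1 ⟨h, h0⟩, fun y hy hyB => ?_⟩
    obtain ⟨C, hC1, hC2, hC3⟩ := h2 y hy hyB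
    exact ⟨C, hC1, ((circ_restrict hR).1 hC2).1, hC3⟩
  · rintro ⟨h1, h2⟩
    refine ⟨fun h => h1 h.1, fun y hy hyB => ?_⟩
    obtain ⟨C, hC1, hC2, hC3⟩ := h2 y hy hyB
    exact ⟨C, hC1, (circ_restrict hR).2 ⟨hC2, hC1.trans (Set.insert_subset (hF hy) h0)⟩, hC3⟩

theorem good_restrict {R K : Set α} (hR : R ⊆ M.E) (hK : K ⊆ R) : Good (M ↾ R) K ↔ Good M K := by
  unfold Good
  have hf : ∀ a F, Fam (M ↾ R) K a F ↔ Fam M K a F := fun a F => fam_restrict hR hK
  simp only [hf]
  refine exists_congr fun a => and_congr_right fun ha => exists_congr fun b => and_congr_right fun hb =>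
    and_congr_right fun _ => and_congr_right fun _ => and_congr_right fun _ => ?_
  have hbas : ∀ D, (M ↾ R).IsBasis D K ↔ M.IsBasis D K := by
    intro D
    rw [Matroid.isBasis_restrict_iff hR]
    exact ⟨fun h => h.1, fun h => ⟨h, hK⟩⟩
  have hc : ∀ F B, (Fam M K a F ∨ Fam M K b F) ∧ Catch (M ↾ R) B F ↔
      (Fam M K a F ∨ Fam M K b F) ∧ Catch M B F := by
    intro F B
    refine and_congr_right fun h => catch_restrict hR ?_
    rcases h with h | h
    · exact h.1.trans hK
    · exact h.1.trans hK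
  simp only [hbas, hc, Matroid.restrict_indep_iff]
  refine forall_congr' fun D => forall_congr' fun hD => forall_congr' fun x => forall_congr' fun hx =>
    forall_congr' fun y => forall_congr' fun hy => forall_congr' fun hyD => ?_
  have hsub : insert y (D \ {x}) ⊆ R :=
    Set.insert_subset (hK hy) (Set.sdiff_subset.trans (hD.subset.trans hK))
  constructor
  · exact fun h h' => h (fun h'' => h' h''.1)
  · exact fun h h' => h (fun h'' => h' ⟨h'', hsub⟩)

theorem sep_of_restrict {R S : Set α} (hR : R ⊆ M.E) (hsep : Sep M R) (hSR : S ⊆ R)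
    (h : Sep (M ↾ R) S) : Sep M S := by
  intro C hC
  rcases hsep C hC with h1 | h1
  · exact h C ((circ_restrict hR).2 ⟨hC, h1⟩)
  · exact Or.inr (h1.mono_right hSR)

theorem sep_restrict {R S : Set α} (hR : R ⊆ M.E) (h : Sep M S) : Sep (M ↾ R) S :=
  fun C hC => h C ((circ_restrict hR).1 hC).1

/-- **the structural characterization of the order property** -/
theorem op_iff [M.Finite] :
    (∃ pos, OP M pos) ↔ ∀ K, K ⊆ M.E → Comp M K → Good M K := by
  constructor
  · rintro ⟨pos, hop⟩ K hKE ⟨hKne, hKsep, hKmin⟩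
    have hfin := restrict_finite (M := M) hKE
    rw [← good_restrict hKE subset_rfl]
    have h1 := op_restrict hKE hKsep hop
    refine good_of_op h1 ?_ hKne
    intro S hS hSne hSsep
    exact subset_antisymm hS (hKmin S hS hSne (sep_of_restrict hKE hKsep hS hSsep))
  · suffices h : ∀ (n : ℕ) (M : Matroid α), M.Finite → M.E.ncard = n →
        (∀ K, K ⊆ M.E → Comp M K → Good M K) → ∃ pos, OP M pos from
      h _ M inferInstance rfl
    intro n
    induction n using Nat.strong_induction_on with
    | _ n ih =>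
      intro M hfinM hn hgood
      rcases Set.eq_empty_or_nonempty M.E with hE | hE
      · refine ⟨fun _ => 0, ?_, ?_⟩
        · rw [hE]
          exact Set.injOn_empty _
        · intro B hB
          have h1 : B = ∅ := Set.subset_empty_iff.1 (hE ▸ hB.sub)
          obtain ⟨B', hB'⟩ := M.exists_isBase
          have h2 : B' = ∅ := Set.subset_empty_iff.1 (hE ▸ hB'.subset_ground)
          rw [h1, ← h2]
          exact hB'
      · by_cases hconn : ∀ S, S ⊆ M.E → S.Nonempty → Sep M S → M.E ⊆ S
        · refine op_of_good (hgood M.E subset_rfl ⟨hE, ?_, hconn⟩)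
          exact fun C hC => Or.inl hC.subset_ground
        · push Not at hconn
          obtain ⟨S, hSE, hSne, hSsep, hS⟩ := hconn
          have hSc : Sep M (M.E \ S) := sep_compl hSsep
          have key : ∀ R : Set α, R ⊆ M.E → R ≠ M.E → Sep M R → ∃ pos, OP (M ↾ R) pos := by
            intro R hR hRne hRsep
            have hlt : R.ncard < n := by
              rw [← hn]
              exact Set.ncard_lt_ncard (hR.ssubset_of_ne hRne) M.ground_finite
            refine ih _ hlt (M ↾ R) (restrict_finite hR) rfl ?_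
            rintro K hKR ⟨hKne, hKsep, hKmin⟩
            rw [good_restrict hR hKR]
            refine hgood K (hKR.trans hR) ⟨hKne, sep_of_restrict hR hRsep hKR hKsep, ?_⟩
            intro T hT hTne hTsep
            exact hKmin T hT hTne (sep_restrict hR hTsep)
          obtain ⟨p, hp⟩ := key S hSE (fun h => hS h.ge) hSsep
          obtain ⟨q, hq⟩ := key (M.E \ S) Set.sdiff_subset (by
            intro h
            obtain ⟨x, hx⟩ := hSne
            have : x ∈ M.E \ S := by
              rw [h]
              exact hSE hx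
            exact this.2 hx) hSc
          exact op_sum hSE hSsep hp hq

/-- **the structural characterization of lattice path matroids** -/
theorem lpm_iff [M.Finite] : IsLatticePathMatroid M ↔ ∀ K, K ⊆ M.E → Comp M K → Good M K := by
  rw [← op_iff]
  exact ⟨op_of_lpm, fun ⟨_, h⟩ => lpm_of_op h⟩

end Pool.Agent.J4.H48.LPM
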