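import Pool.Agent.J4.H48.LPM.Sum
import Pool.Agent.J4.H48.LPM.Defs

/-!
# Lattice path matroids: the equivalence with the order property
-/

set_option autoImplicit false

namespace Pool.Agent.J4.H48.LPM

open Set

universe u

variable {α : Type u} {M : Matroid α}

section aux

variable {n : ℕ} (e : Fin n ≃ M.E)

/-- the image of a set of indices -/
def im (T : Set (Fin n)) : Set α := (fun i => (e i : α)) '' T

theorem im_inj : Function.Injective (fun i => (e i : α)) :=
  fun _ _ h => e.injective (Subtype.ext h)

theorem im_ncard (T : Set (Fin n)) : (im e T).ncard = T.ncard :=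
  Set.ncard_image_of_injective T (im_inj e)

theorem im_inter (S T : Set (Fin n)) : im e (S ∩ T) = im e S ∩ im e T :=
  Set.image_inter (im_inj e)

theorem im_sub (T : Set (Fin n)) : im e T ⊆ M.E := by
  rintro x ⟨i, _, rfl⟩
  exact (e i).2

theorem exists_im {B : Set α} (hB : B ⊆ M.E) : ∃ T, B = im e T := by
  refine ⟨{i | (e i : α) ∈ B}, ?_⟩
  ext x
  constructor
  · intro hx
    refine ⟨e.symm ⟨x, hB hx⟩, ?_, ?_⟩
    · show (e (e.symm ⟨x, hB hx⟩) : α) ∈ B
      rw [Equiv.apply_symm_apply]
      exact hx
    · show (e (e.symm ⟨x, hB hx⟩) : α) = x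
      rw [Equiv.apply_symm_apply]
  · rintro ⟨i, hi, rfl⟩
    exact hi

theorem im_injective {S T : Set (Fin n)} (h : im e S = im e T) : S = T :=
  Set.image_injective.2 (im_inj e) h

/-- the index as a position -/
noncomputable def ix (x : α) : ℕ := by
  classical
  exact if h : x ∈ M.E then (e.symm ⟨x, h⟩ : ℕ) else 0

theorem ix_e (i : Fin n) : ix e (e i : α) = i := by
  unfold ix
  rw [dif_pos (e i).2]
  simp

theorem L_ix (k : ℕ) : L M (ix e) k = im e {i | (i : ℕ) < k} := by
  ext x
  constructor
  · rintro ⟨h1, h2⟩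
    refine ⟨e.symm ⟨x, h1⟩, ?_, ?_⟩
    · unfold ix at h2
      rw [dif_pos h1] at h2
      exact h2
    · show (e (e.symm ⟨x, h1⟩) : α) = x
      rw [Equiv.apply_symm_apply]
  · rintro ⟨i, hi, rfl⟩
    refine ⟨(e i).2, ?_⟩
    show ix e (e i : α) < k
    rw [ix_e]
    exact hi

theorem U_ix (k : ℕ) : U M (ix e) k = im e {i | k ≤ (i : ℕ)} := by
  ext x
  constructor
  · rintro ⟨h1, h2⟩
    refine ⟨e.symm ⟨x, h1⟩, ?_, ?_⟩
    · unfold ix at h2
      rw [dif_pos h1] at h2
      exact h2
    · show (e (e.symm ⟨x, h1⟩) : α) = x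
      rw [Equiv.apply_symm_apply]
  · rintro ⟨i, hi, rfl⟩
    refine ⟨(e i).2, ?_⟩
    show k ≤ ix e (e i : α)
    rw [ix_e]
    exact hi

theorem height_eq (R : Fin n → Bool) (k : ℕ) : height R k = ({i | R i = true} ∩ {i : Fin n | (i : ℕ) < k}).ncard := by
  unfold height
  rw [Set.ncard_eq_toFinset_card']
  congr 1
  ext i
  simp [and_comm]

theorem inter_L (R : Fin n → Bool) (k : ℕ) : (im e {i | R i = true} ∩ L M (ix e) k).ncard = height R k := by
  rw [L_ix, ← im_inter, im_ncard, height_eq]

theorem total (R : Fin n → Bool) :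
    (Finset.univ.filter fun i : Fin n => R i = true).card = ({i | R i = true} : Set (Fin n)).ncard := by
  rw [Set.ncard_eq_toFinset_card']
  congr 1
  ext i
  simp

theorem inter_U [M.Finite] (R : Fin n → Bool) (k : ℕ) :
    height R k + (im e {i | R i = true} ∩ U M (ix e) k).ncard =
      (Finset.univ.filter fun i : Fin n => R i = true).card := by
  rw [← inter_L e, LU_ncard _ _ (im_sub e _), im_ncard, total]

theorem ix_injOn : Set.InjOn (ix e) M.E := by
  intro x hx y hy hxy
  have h1 : ∀ z : M.E, ix e (z : α) = (e.symm z : ℕ) := by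
    intro z
    obtain ⟨i, rfl⟩ := e.surjective z
    rw [ix_e]
    simp
  have h2 := h1 ⟨x, hx⟩
  have h3 := h1 ⟨y, hy⟩
  have h4 : e.symm ⟨x, hx⟩ = e.symm ⟨y, hy⟩ := Fin.ext (by rw [← h2, ← h3]; exact hxy)
  exact congrArg Subtype.val (e.symm.injective h4)

end aux

/-- **a lattice path matroid has the order property** -/
theorem op_of_lpm [M.Finite] (h : IsLatticePathMatroid M) : ∃ pos, OP M pos := by
  obtain ⟨m, r, P, Q, hP, hQ, hPQ, e, he⟩ := h
  refine ⟨ix e, ix_injOn e, ?_⟩
  intro B hB
  have hbase : ∀ B', M.IsBase B' → ∃ R : Fin (m + r) → Bool, IsPath m r R ∧ NeverAbove P R ∧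
      NeverAbove R Q ∧ B' = im e {i | R i = true} := by
    intro B' hB'
    obtain ⟨T, rfl⟩ := exists_im e hB'.subset_ground
    obtain ⟨R, h1, h2, h3, h4⟩ := (he T).1 hB'
    exact ⟨R, h1, h2, h3, by rw [h4]⟩
  have hr : rk M M.E = r := by
    obtain ⟨B', hB'⟩ := M.exists_isBase
    obtain ⟨R, h1, _, _, h4⟩ := hbase B' hB'
    rw [← base_ncard hB', h4, im_ncard, ← total]
    exact h1
  have hlow : ∀ k, rk M (L M (ix e) k) ≤ height Q k := by
    intro k
    obtain ⟨I, hI, hIc⟩ := exists_basis (L_sub M (ix e) k)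
    obtain ⟨B', hB', hIB'⟩ := hI.indep.exists_isBase_superset
    obtain ⟨R, h1, h2, h3, h4⟩ := hbase B' hB'
    rw [← hIc]
    refine le_trans ?_ (h3 k)
    rw [← inter_L e, ← h4]
    exact Set.ncard_le_ncard (Set.subset_inter hIB' hI.subset)
      (M.set_finite _ (Set.inter_subset_left.trans hB'.subset_ground))
  have hup : ∀ k, rk M (U M (ix e) k) + height P k ≤ r := by
    intro k
    obtain ⟨I, hI, hIc⟩ := exists_basis (U_sub M (ix e) k)
    obtain ⟨B', hB', hIB'⟩ := hI.indep.exists_isBase_superset
    obtain ⟨R, h1, h2, h3, h4⟩ := hbase B' hB'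
    rw [← hIc]
    have h5 := inter_U e R k
    unfold IsPath at h1
    rw [h1, ← h4] at h5
    have h6 := h2 k
    have h7 : I.ncard ≤ (B' ∩ U M (ix e) k).ncard := Set.ncard_le_ncard (Set.subset_inter hIB' hI.subset)
      (M.set_finite _ (Set.inter_subset_left.trans hB'.subset_ground))
    omega
  obtain ⟨T, rfl⟩ := exists_im e hB.sub
  classical
  let R : Fin (m + r) → Bool := fun i => decide (i ∈ T)
  have hT : T = {i | R i = true} := by
    ext i
    simp [R]
  have hRp : IsPath m r R := by
    unfold IsPath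
    rw [total, ← hT, ← im_ncard e, hB.card, hr]
  refine (he T).2 ⟨R, hRp, fun k => ?_, fun k => ?_, hT⟩
  · have h1 := hup k
    have h2 := hB.up k
    have h3 := inter_U e R k
    unfold IsPath at hRp
    rw [hRp, ← hT] at h3
    omega
  · have h1 := hB.low k
    have h2 := inter_L e R k
    rw [← hT] at h2
    rw [← h2]
    exact h1.trans (hlow k)

theorem height_succ {n : ℕ} (R : Fin n → Bool) (k : ℕ) (hk : k < n) :
    height R (k + 1) = height R k + (if R ⟨k, hk⟩ = true then 1 else 0) := by
  unfold height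
  have h1 : (Finset.univ.filter fun i : Fin n => (i : ℕ) < k + 1 ∧ R i = true) =
      (Finset.univ.filter fun i : Fin n => (i : ℕ) < k ∧ R i = true) ∪
        (if R ⟨k, hk⟩ = true then {⟨k, hk⟩} else ∅) := by
    ext i
    rw [Finset.mem_union, Finset.mem_filter, Finset.mem_filter]
    constructor
    · rintro ⟨_, h1, h2⟩
      rcases Nat.lt_or_ge (i : ℕ) k with h | h
      · exact Or.inl ⟨Finset.mem_univ _, h, h2⟩
      · right
        have h3 : i = ⟨k, hk⟩ := Fin.ext (by show (i : ℕ) = k; omega)
        rw [h3] at h2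
        rw [if_pos h2, h3]
        exact Finset.mem_singleton_self _
    · rintro (⟨_, h1, h2⟩ | h)
      · exact ⟨Finset.mem_univ _, by omega, h2⟩
      · split_ifs at h with h1
        · rw [Finset.mem_singleton] at h
          rw [h]
          exact ⟨Finset.mem_univ _, Nat.lt_succ_self _, h1⟩
        · exact absurd h (Finset.notMem_empty _)
  rw [h1, Finset.card_union_of_disjoint]
  · congr 1
    split_ifs
    · exact Finset.card_singleton _
    · exact Finset.card_empty
  · rw [Finset.disjoint_left]
    intro i hi hi'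
    rw [Finset.mem_filter] at hi
    split_ifs at hi'
    · rw [Finset.mem_singleton] at hi'
      rw [hi'] at hi
      exact absurd hi.2.1 (lt_irrefl _)
    · exact absurd hi' (Finset.notMem_empty _)

theorem height_top {n : ℕ} (R : Fin n → Bool) {k : ℕ} (hk : n ≤ k) :
    height R k = (Finset.univ.filter fun i : Fin n => R i = true).card := by
  unfold height
  congr 1
  ext i
  have := i.2
  simp only [Finset.mem_filter, Finset.mem_univ, true_and]
  constructor
  · exact fun h => h.2
  · exact fun h => ⟨by omega, h⟩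

theorem height_zero {n : ℕ} (R : Fin n → Bool) : height R 0 = 0 := by
  unfold height
  rw [Finset.card_eq_zero, Finset.filter_eq_empty_iff]
  rintro i _ ⟨h, _⟩
  exact absurd h (Nat.not_lt_zero _)

theorem rk_insert_le [M.Finite] (x : α) (X : Set α) : rk M (insert x X) ≤ rk M X + 1 := by
  have h1 := M.eRk_insert_le_add_one x X
  rw [← coe_rk, ← coe_rk] at h1
  exact_mod_cast h1

/-- the order property for the enumeration of the ground set -/
theorem exists_enum [M.Finite] {pos : α → ℕ} (hop : OP M pos) {n : ℕ} (hn : M.E.ncard = n) :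
    ∃ e : Fin n ≃ M.E, OP M (ix e) := by
  classical
  have := M.ground_finite.fintype
  let s : Finset ℕ := M.E.toFinset.image pos
  have hs : s.card = n := by
    rw [Finset.card_image_of_injOn, ← hn, Set.ncard_eq_toFinset_card']
    rw [Set.coe_toFinset]
    exact hop.1
  let g := s.orderIsoOfFin hs
  let φ : M.E → s := fun x => ⟨pos x, Finset.mem_image_of_mem _ (Set.mem_toFinset.2 x.2)⟩
  have hφ : Function.Bijective φ := by
    constructor
    · intro x y hxy
      have h1 : pos x = pos y := congrArg Subtype.val hxy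
      exact Subtype.ext (hop.1 x.2 y.2 h1)
    · rintro ⟨y, hy⟩
      obtain ⟨x, hx, rfl⟩ := Finset.mem_image.1 hy
      exact ⟨⟨x, Set.mem_toFinset.1 hx⟩, rfl⟩
  let ψ := Equiv.ofBijective φ hφ
  let e : Fin n ≃ M.E := g.toEquiv.trans ψ.symm
  have hpe : ∀ i, pos (e i) = g i := by
    intro i
    have h1 : φ (e i) = g i := ψ.apply_symm_apply (g i)
    exact congrArg Subtype.val h1
  have hmono : ∀ x ∈ M.E, ∀ y ∈ M.E, ix e x < ix e y → pos x < pos y := by
    intro x hx y hy hxy
    obtain ⟨i, hi⟩ := e.surjective ⟨x, hx⟩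
    obtain ⟨j, hj⟩ := e.surjective ⟨y, hy⟩
    have hi' : (e i : α) = x := by rw [hi]
    have hj' : (e j : α) = y := by rw [hj]
    rw [← hi', ← hj', ix_e, ix_e] at hxy
    rw [← hi', ← hj', hpe, hpe]
    exact g.strictMono hxy
  refine ⟨e, ix_injOn e, fun B hB => hop.2 B ⟨hB.sub, hB.card, fun k => ?_, fun k => ?_⟩⟩
  · obtain ⟨j, hj⟩ := exists_L_of_down (ix_injOn e) (L_sub M pos k) (fun x hx y hy hyx =>
      ⟨hy, (hmono y hy x hx.1 hyx).trans hx.2⟩)
    rw [hj]
    exact hB.low j
  · obtain ⟨j, hj⟩ := exists_L_of_down (ix_injOn e) (L_sub M pos k) (fun x hx y hy hyx =>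
      ⟨hy, (hmono y hy x hx.1 hyx).trans hx.2⟩)
    rw [← compl_L, hj, compl_L]
    exact hB.up j

/-- **the order property implies that the matroid is a lattice path matroid** -/
theorem lpm_of_op [M.Finite] {pos : α → ℕ} (hop : OP M pos) : IsLatticePathMatroid M := by
  classical
  set r := rk M M.E with hr
  have hrn : r ≤ M.E.ncard := rk_le_ncard subset_rfl
  obtain ⟨m, hm⟩ : ∃ m, M.E.ncard = m + r := ⟨M.E.ncard - r, by omega⟩
  obtain ⟨e, he⟩ := exists_enum hop hm
  let l : ℕ → ℕ := fun k => rk M (L M (ix e) k)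
  let w : ℕ → ℕ := fun k => rk M (U M (ix e) k)
  have hl0 : l 0 = 0 := by
    have h1 : L M (ix e) 0 = ∅ := by
      ext x
      simp [L]
    have h2 := rk_le_ncard (L_sub M (ix e) 0)
    rw [h1, Set.ncard_empty] at h2
    show rk M (L M (ix e) 0) = 0
    rw [h1]
    omega
  have hLtop : ∀ k, m + r ≤ k → L M (ix e) k = M.E := by
    intro k hk
    apply Set.Subset.antisymm (L_sub _ _ _)
    intro x hx
    refine ⟨hx, ?_⟩
    obtain ⟨i, hi⟩ := e.surjective ⟨x, hx⟩
    have hi' : (e i : α) = x := by rw [hi]
    rw [← hi', ix_e]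
    have := i.2
    omega
  have hUtop : ∀ k, m + r ≤ k → U M (ix e) k = ∅ := by
    intro k hk
    rw [← compl_L, hLtop k hk, Set.sdiff_self]
  have hU0 : U M (ix e) 0 = M.E := by
    apply Set.Subset.antisymm (U_sub _ _ _)
    intro x hx
    exact ⟨hx, Nat.zero_le _⟩
  have hempty : rk M ∅ = 0 := by
    have h2 := rk_le_ncard (M := M) (Set.empty_subset M.E)
    rw [Set.ncard_empty] at h2
    omega
  have hLs : ∀ k (hk : k < m + r), L M (ix e) (k + 1) = insert (e ⟨k, hk⟩ : α) (L M (ix e) k) := by
    intro k hk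
    ext x
    constructor
    · rintro ⟨h1, h2⟩
      rcases Nat.lt_or_ge (ix e x) k with h | h
      · exact Or.inr ⟨h1, h⟩
      · left
        apply ix_injOn e h1 (e ⟨k, hk⟩).2
        rw [ix_e]
        show ix e x = k
        omega
    · rintro (rfl | ⟨h1, h2⟩)
      · refine ⟨(e ⟨k, hk⟩).2, ?_⟩
        rw [ix_e]
        exact Nat.lt_succ_self _
      · exact ⟨h1, by omega⟩
  have hUs : ∀ k (hk : k < m + r), U M (ix e) k = insert (e ⟨k, hk⟩ : α) (U M (ix e) (k + 1)) := by
    intro k hk
    ext x
    constructor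
    · rintro ⟨h1, h2⟩
      rcases Nat.lt_or_ge k (ix e x) with h | h
      · exact Or.inr ⟨h1, h⟩
      · left
        apply ix_injOn e h1 (e ⟨k, hk⟩).2
        rw [ix_e]
        show ix e x = k
        omega
    · rintro (rfl | ⟨h1, h2⟩)
      · refine ⟨(e ⟨k, hk⟩).2, ?_⟩
        rw [ix_e]
      · exact ⟨h1, by omega⟩
  let Q : Fin (m + r) → Bool := fun i => decide (l i < l (i + 1))
  let P : Fin (m + r) → Bool := fun i => decide (w (i + 1) < w i)
  have hQh : ∀ k, k ≤ m + r → height Q k = l k := by
    intro k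
    induction k with
    | zero =>
      intro _
      rw [height_zero, hl0]
    | succ k ih =>
      intro hk
      rw [height_succ Q k hk, ih (by omega)]
      have h1 : l (k + 1) ≤ l k + 1 := by
        show rk M (L M (ix e) (k + 1)) ≤ rk M (L M (ix e) k) + 1
        rw [hLs k hk]
        exact rk_insert_le _ _
      have h2 : l k ≤ l (k + 1) := by
        show rk M (L M (ix e) k) ≤ rk M (L M (ix e) (k + 1))
        rw [hLs k hk]
        exact rk_mono (Set.subset_insert _ _)
      have h3 : (Q ⟨k, hk⟩ = true) ↔ l k < l (k + 1) := by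
        show decide (l k < l (k + 1)) = true ↔ _
        exact decide_eq_true_iff
      by_cases h : l k < l (k + 1)
      · rw [if_pos (h3.2 h)]
        omega
      · rw [if_neg (fun h' => h (h3.1 h'))]
        omega
  have hPh : ∀ k, k ≤ m + r → height P k + w k = r := by
    intro k
    induction k with
    | zero =>
      intro _
      rw [height_zero]
      show 0 + rk M (U M (ix e) 0) = r
      rw [hU0, hr, zero_add]
    | succ k ih =>
      intro hk
      rw [height_succ P k hk]
      have h0 := ih (by omega)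
      have h1 : w k ≤ w (k + 1) + 1 := by
        show rk M (U M (ix e) k) ≤ rk M (U M (ix e) (k + 1)) + 1
        rw [hUs k hk]
        exact rk_insert_le _ _
      have h2 : w (k + 1) ≤ w k := by
        show rk M (U M (ix e) (k + 1)) ≤ rk M (U M (ix e) k)
        rw [hUs k hk]
        exact rk_mono (Set.subset_insert _ _)
      have h3 : (P ⟨k, hk⟩ = true) ↔ w (k + 1) < w k := by
        show decide (w (k + 1) < w k) = true ↔ _
        exact decide_eq_true_iff
      by_cases h : w (k + 1) < w k
      · rw [if_pos (h3.2 h)]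
        omega
      · rw [if_neg (fun h' => h (h3.1 h'))]
        omega
  have hQp : IsPath m r Q := by
    unfold IsPath
    rw [← height_top Q le_rfl, hQh (m + r) le_rfl]
    show rk M (L M (ix e) (m + r)) = r
    rw [hLtop (m + r) le_rfl]
  have hPp : IsPath m r P := by
    unfold IsPath
    rw [← height_top P le_rfl]
    have h1 := hPh (m + r) le_rfl
    have h2 : w (m + r) = 0 := by
      show rk M (U M (ix e) (m + r)) = 0
      rw [hUtop (m + r) le_rfl, hempty]
    omega
  have hlw : ∀ k, r ≤ l k + w k := by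
    intro k
    have h1 := rk_union_le (M := M) (L M (ix e) k) (U M (ix e) k)
    rw [LU_union] at h1
    exact h1
  refine ⟨m, r, P, Q, hPp, hQp, ?_, e, ?_⟩
  · intro k
    rcases Nat.le_total k (m + r) with h | h
    · rw [hQh k h]
      have h1 := hPh k h
      have h2 := hlw k
      omega
    · rw [height_top P h, height_top Q h, hPp, hQp]
  · intro T
    constructor
    · intro hT
      have hok := ok_of_base (pos := ix e) hT
      let R : Fin (m + r) → Bool := fun i => decide (i ∈ T)
      have hTR : T = {i | R i = true} := by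
        ext i
        simp [R]
      have hRp : IsPath m r R := by
        unfold IsPath
        rw [total, ← hTR, ← im_ncard e]
        exact hok.card
      refine ⟨R, hRp, fun k => ?_, fun k => ?_, hTR⟩
      · rcases Nat.le_total k (m + r) with h | h
        · have h1 := hPh k h
          have h2 : (im e T ∩ U M (ix e) k).ncard ≤ w k := hok.up k
          have h3 := inter_U e R k
          rw [← hTR, hRp] at h3
          omega
        · rw [height_top P h, height_top R h, hPp, hRp]
      · rcases Nat.le_total k (m + r) with h | h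
        · have h2 : (im e T ∩ L M (ix e) k).ncard ≤ l k := hok.low k
          have h3 := inter_L e R k
          rw [← hTR] at h3
          rw [hQh k h]
          omega
        · rw [height_top R h, height_top Q h, hRp, hQp]
    · rintro ⟨R, hRp, hPR, hRQ, rfl⟩
      apply he.2
      refine ⟨im_sub e _, ?_, fun k => ?_, fun k => ?_⟩
      · show (im e _).ncard = _
        rw [im_ncard, ← total]
        exact hRp
      · show (im e _ ∩ _).ncard ≤ _
        rw [inter_L]
        rcases Nat.le_total k (m + r) with h | h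
        · have h1 := hRQ k
          rw [hQh k h] at h1
          exact h1
        · rw [height_top R h, hRp, hLtop k h]
      · show (im e _ ∩ _).ncard ≤ _
        have h3 := inter_U e R k
        rw [hRp] at h3
        rcases Nat.le_total k (m + r) with h | h
        · have h1 := hPR k
          have h2 := hPh k h
          show _ ≤ w k
          omega
        · rw [height_top R h, hRp] at h3
          omega

end Pool.Agent.J4.H48.LPM
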