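import Pool.Agent.J4.H48.LPM.Conn

/-!
# Lattice path matroids: necessity, and direct sums
-/

set_option autoImplicit false

namespace Pool.Agent.J4.H48.LPM

open Set
open scoped Matroid

universe u

variable {α : Type u} {M : Matroid α}

theorem L_rev {pos : α → ℕ} {N : ℕ} (hN : ∀ x ∈ M.E, pos x ≤ N) (k : ℕ) :
    L M pos k = U M (fun x => N - pos x) (N + 1 - k) := by
  ext x
  constructor
  · rintro ⟨h1, h2⟩
    have h3 := hN x h1
    refine ⟨h1, ?_⟩
    show N + 1 - k ≤ N - pos x
    omega
  · rintro ⟨h1, h2⟩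
    have h3 := hN x h1
    have h4 : N + 1 - k ≤ N - pos x := h2
    exact ⟨h1, by omega⟩

theorem U_rev {pos : α → ℕ} {N : ℕ} (hN : ∀ x ∈ M.E, pos x ≤ N) (k : ℕ) :
    U M pos k = L M (fun x => N - pos x) (N + 1 - k) := by
  ext x
  constructor
  · rintro ⟨h1, h2⟩
    have h3 := hN x h1
    refine ⟨h1, ?_⟩
    show N - pos x < N + 1 - k
    omega
  · rintro ⟨h1, h2⟩
    have h3 := hN x h1
    have h4 : N - pos x < N + 1 - k := h2
    exact ⟨h1, by omega⟩

/-- **reversing the order** -/
theorem op_rev {pos : α → ℕ} (hop : OP M pos) {N : ℕ} (hN : ∀ x ∈ M.E, pos x ≤ N) :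
    OP M (fun x => N - pos x) := by
  refine ⟨?_, ?_⟩
  · intro x hx y hy hxy
    apply hop.1 hx hy
    have h1 := hN x hx
    have h2 := hN y hy
    have h3 : N - pos x = N - pos y := hxy
    omega
  · intro B hB
    apply hop.2
    refine ⟨hB.sub, hB.card, fun k => ?_, fun k => ?_⟩
    · rw [L_rev hN]
      exact hB.up _
    · rw [U_rev hN]
      exact hB.low _

/-- **necessity** -/
theorem good_of_op [M.Finite] {pos : α → ℕ} (hop : OP M pos) (hconn : Conn M) (hne : M.E.Nonempty) :
    Good M M.E := by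
  have hinj := hop.1
  obtain ⟨a, haE, hamin⟩ := Set.exists_min_image M.E pos M.ground_finite hne
  obtain ⟨b, hbE, hbmax⟩ := Set.exists_max_image M.E pos M.ground_finite hne
  have hmin : ∀ x ∈ M.E, x ≠ a → pos a < pos x := by
    intro x hx hxa
    have h1 := hamin x hx
    have h2 : pos a ≠ pos x := fun h => hxa (hinj haE hx h).symm
    omega
  set N := pos b with hNb
  have hN : ∀ x ∈ M.E, pos x ≤ N := hbmax
  have hop' := op_rev hop hN
  have hmin' : ∀ x ∈ M.E, x ≠ b → (fun x => N - pos x) b < (fun x => N - pos x) x := by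
    intro x hx hxb
    have h1 := hN x hx
    have h2 : pos b ≠ pos x := fun h => hxb (hinj hbE hx h).symm
    show N - pos b < N - pos x
    omega
  have hF := fun F (h : Fam M M.E a F) => fam_down hop hmin h
  have hG : ∀ G, Fam M M.E b G → ∀ x ∈ G, ∀ y ∈ M.E, pos x < pos y → y ∈ G := by
    intro G h x hx y hy hxy
    apply fam_down hop' hmin' h x hx y hy
    have h1 := hN y hy
    show N - pos y < N - pos x
    omega
  refine ⟨a, haE, b, hbE, ?_, ?_, ?_, ?_⟩
  · intro F F' h h'
    by_contra hcon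
    push Not at hcon
    obtain ⟨h1, h2⟩ := hcon
    rw [Set.not_subset] at h1 h2
    obtain ⟨x, hx1, hx2⟩ := h1
    obtain ⟨y, hy1, hy2⟩ := h2
    rcases lt_trichotomy (pos x) (pos y) with h3 | h3 | h3
    · exact hx2 (hF F' h' y hy1 x (h.1 hx1) h3)
    · exact hx2 ((hinj (h.1 hx1) (h'.1 hy1) h3) ▸ hy1)
    · exact hy2 (hF F h x hx1 y (h'.1 hy1) h3)
  · intro F F' h h'
    by_contra hcon
    push Not at hcon
    obtain ⟨h1, h2⟩ := hcon
    rw [Set.not_subset] at h1 h2
    obtain ⟨x, hx1, hx2⟩ := h1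
    obtain ⟨y, hy1, hy2⟩ := h2
    rcases lt_trichotomy (pos x) (pos y) with h3 | h3 | h3
    · exact hy2 (hG F h x hx1 y (h'.1 hy1) h3)
    · exact hx2 ((hinj (h.1 hx1) (h'.1 hy1) h3) ▸ hy1)
    · exact hx2 (hG F' h' y hy1 x (h.1 hx1) h3)
  · intro F G h h'
    rw [or_iff_not_imp_left, Set.not_disjoint_iff]
    rintro ⟨z, hz1, hz2⟩ w hw
    rcases lt_trichotomy (pos w) (pos z) with h3 | h3 | h3
    · exact Or.inl (hF F h z hz1 w hw h3)
    · exact Or.inl ((hinj hw (h.1 hz1) h3) ▸ hz1)
    · exact Or.inr (hG G h' z hz2 w hw h3)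
  · intro D hD x hx y hy hyD hdep
    rw [Matroid.isBasis_ground_iff] at hD
    have hnot : ¬ Ok M pos (insert y (D \ {x})) := fun h => hdep (hop.2 _ h).indep
    by_cases hlow : ∃ k, rk M (L M pos k) < ((insert y (D \ {x})) ∩ L M pos k).ncard
    · obtain ⟨k, hk⟩ := hlow
      obtain ⟨F, h1, h2⟩ := exists_catch hop hconn haE hmin hD hy hk
      exact ⟨F, Or.inl h1, h2⟩
    · have hup : ∃ k, rk M (U M pos k) < ((insert y (D \ {x})) ∩ U M pos k).ncard := by
        by_contra hcon
        push Not at hlow hcon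
        refine hnot ⟨?_, ?_, hlow, hcon⟩
        · intro z hz
          rcases hz with rfl | hz
          · exact hy
          · exact hD.subset_ground hz.1
        · rw [ncard_exch' hD.subset_ground hx hyD hy]
          exact base_ncard hD
      obtain ⟨k, hk⟩ := hup
      rw [U_rev hN] at hk
      obtain ⟨F, h1, h2⟩ := exists_catch hop' hconn hbE hmin' hD hy hk
      exact ⟨F, Or.inr h1, h2⟩

/-! ### separators -/

theorem union_indep {S I J : Set α} (hS : Sep M S) (hI : M.Indep I) (hJ : M.Indep J) (hIS : I ⊆ S)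
    (hJS : Disjoint J S) : M.Indep (I ∪ J) := by
  by_contra hcon
  obtain ⟨C, hC1, hC2⟩ := (Matroid.Dep.exists_isCircuit_subset
    ⟨hcon, Set.union_subset hI.subset_ground hJ.subset_ground⟩ : ∃ C, C ⊆ I ∪ J ∧ M.IsCircuit C)
  rcases hS C hC2 with h | h
  · apply hC2.not_indep
    apply hI.subset
    intro z hz
    rcases hC1 hz with h1 | h1
    · exact h1
    · exact absurd (h hz) (Set.disjoint_left.1 hJS h1)
  · apply hC2.not_indep
    apply hJ.subset
    intro z hz
    rcases hC1 hz with h1 | h1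
    · exact absurd (hIS h1) (Set.disjoint_left.1 h hz)
    · exact h1

theorem rk_union_sep [M.Finite] {S X Y : Set α} (hS : Sep M S) (hX : X ⊆ M.E) (hY : Y ⊆ M.E)
    (hXS : X ⊆ S) (hYS : Disjoint Y S) : rk M (X ∪ Y) = rk M X + rk M Y := by
  apply le_antisymm (rk_union_le X Y)
  obtain ⟨I, hI, hI'⟩ := exists_basis hX
  obtain ⟨J, hJ, hJ'⟩ := exists_basis hY
  have hJS : Disjoint J S := hYS.mono_left hJ.subset
  have h1 := union_indep hS hI.indep hJ.indep (hI.subset.trans hXS) hJS
  have h2 := ncard_le_rk h1 (Set.union_subset_union hI.subset hJ.subset)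
  rw [Set.ncard_union_eq _ (M.set_finite I hI.indep.subset_ground)
    (M.set_finite J hJ.indep.subset_ground)] at h2
  · omega
  · exact (hJS.mono_right (hI.subset.trans hXS)).symm

theorem sep_compl {S : Set α} (hS : Sep M S) : Sep M (M.E \ S) := by
  intro C hC
  rcases hS C hC with h | h
  · right
    rw [Set.disjoint_left]
    intro z hz hz'
    exact hz'.2 (h hz)
  · left
    intro z hz
    exact ⟨hC.subset_ground hz, fun h' => Set.disjoint_left.1 h hz h'⟩

theorem rk_restrict {R X : Set α} (hX : X ⊆ R) : rk (M ↾ R) X = rk M X := by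
  unfold rk
  rw [Matroid.restrict_eRk_eq M hX]

theorem restrict_finite [M.Finite] {R : Set α} (hR : R ⊆ M.E) : (M ↾ R).Finite :=
  ⟨M.set_finite R hR⟩

theorem L_restrict {R : Set α} (hR : R ⊆ M.E) (pos : α → ℕ) (k : ℕ) :
    L (M ↾ R) pos k = L M pos k ∩ R := by
  ext x
  constructor
  · rintro ⟨h1, h2⟩
    exact ⟨⟨hR h1, h2⟩, h1⟩
  · rintro ⟨⟨_, h1⟩, h2⟩
    exact ⟨h2, h1⟩

theorem U_restrict {R : Set α} (hR : R ⊆ M.E) (pos : α → ℕ) (k : ℕ) :
    U (M ↾ R) pos k = U M pos k ∩ R := by
  ext x
  constructor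
  · rintro ⟨h1, h2⟩
    exact ⟨⟨hR h1, h2⟩, h1⟩
  · rintro ⟨⟨_, h1⟩, h2⟩
    exact ⟨h2, h1⟩

/-- bases of the parts -/
theorem base_of_parts [M.Finite] {S B : Set α} (hSE : S ⊆ M.E) (hS : Sep M S)
    (h1 : (M ↾ S).IsBase (B ∩ S)) (h2 : (M ↾ (M.E \ S)).IsBase (B ∩ (M.E \ S))) (hB : B ⊆ M.E) :
    M.IsBase B := by
  rw [Matroid.isBase_restrict_iff] at h1 h2
  have h3 : B = (B ∩ S) ∪ (B ∩ (M.E \ S)) := by
    ext z
    constructor
    · intro hz
      by_cases h : z ∈ S
      · exact Or.inl ⟨hz, h⟩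
      · exact Or.inr ⟨hz, hB hz, h⟩
    · rintro (h | h)
      · exact h.1
      · exact h.1
  have hd : Disjoint (B ∩ (M.E \ S)) S := by
    rw [Set.disjoint_left]
    rintro z ⟨_, _, h⟩ h'
    exact h h'
  have h4 : M.Indep B := by
    rw [h3]
    exact union_indep hS h1.indep h2.indep Set.inter_subset_right hd
  apply isBase_of h4
  have h5 : rk M M.E = rk M S + rk M (M.E \ S) := by
    rw [← rk_union_sep hS hSE Set.sdiff_subset subset_rfl Set.disjoint_sdiff_left,
      Set.union_sdiff_cancel hSE]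
  have h6 : B.ncard = (B ∩ S).ncard + (B ∩ (M.E \ S)).ncard := by
    conv_lhs => rw [h3]
    apply Set.ncard_union_eq _ (M.set_finite _ h1.indep.subset_ground) (M.set_finite _ h2.indep.subset_ground)
    exact (hd.mono_right Set.inter_subset_right).symm
  rw [h5, h6, ncard_eq_rk h1, ncard_eq_rk h2]

/-- **direct sums** -/
theorem op_sum [M.Finite] {S : Set α} (hSE : S ⊆ M.E) (hS : Sep M S) {p q : α → ℕ}
    (hp : OP (M ↾ S) p) (hq : OP (M ↾ (M.E \ S)) q) : ∃ pos, OP M pos := by
  classical
  obtain ⟨N, hN⟩ : ∃ N, ∀ x ∈ S, p x < N := by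
    obtain ⟨N, hN⟩ := ((M.set_finite S hSE).image p).bddAbove
    exact ⟨N + 1, fun x hx => Nat.lt_succ_of_le (hN (Set.mem_image_of_mem p hx))⟩
  let pos : α → ℕ := fun x => if x ∈ S then p x else N + q x
  have hpos1 : ∀ x ∈ S, pos x = p x := fun x hx => if_pos hx
  have hpos2 : ∀ x, x ∉ S → pos x = N + q x := fun x hx => if_neg hx
  have hfS := restrict_finite (M := M) hSE
  have hfT := restrict_finite (M := M) (R := M.E \ S) Set.sdiff_subset
  have hEE : rk M M.E = rk M S + rk M (M.E \ S) := by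
    rw [← rk_union_sep hS hSE Set.sdiff_subset subset_rfl Set.disjoint_sdiff_left,
      Set.union_sdiff_cancel hSE]
  refine ⟨pos, ?_, ?_⟩
  · intro x hx y hy hxy
    by_cases hxS : x ∈ S
    · by_cases hyS : y ∈ S
      · rw [hpos1 x hxS, hpos1 y hyS] at hxy
        exact hp.1 hxS hyS hxy
      · rw [hpos1 x hxS, hpos2 y hyS] at hxy
        have := hN x hxS
        omega
    · by_cases hyS : y ∈ S
      · rw [hpos2 x hxS, hpos1 y hyS] at hxy
        have := hN y hyS
        omega
      · rw [hpos2 x hxS, hpos2 y hyS] at hxy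
        exact hq.1 (show x ∈ M.E \ S from ⟨hx, hxS⟩) (show y ∈ M.E \ S from ⟨hy, hyS⟩) (by omega)
  · intro B hB
    have hfB := M.set_finite B hB.sub
    -- the cut between the two parts
    have hLN : L M pos N = S := by
      ext x
      constructor
      · rintro ⟨h1, h2⟩
        by_contra hcon
        rw [hpos2 x hcon] at h2
        omega
      · intro h
        refine ⟨hSE h, ?_⟩
        rw [hpos1 x h]
        exact hN x h
    have hUN : U M pos N = M.E \ S := by rw [← compl_L, hLN]
    have e1 := hB.low N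
    have e2 := hB.up N
    have e3 := LU_ncard (M := M) pos N hB.sub
    rw [hLN] at e1 e3
    rw [hUN] at e2 e3
    have e4 := hB.card
    have hBS : (B ∩ S).ncard = rk M S := by omega
    have hBT : (B ∩ (M.E \ S)).ncard = rk M (M.E \ S) := by omega
    -- descriptions of the segments
    have hL1 : ∀ k, k ≤ N → L (M ↾ S) p k = L M pos k := by
      intro k hk
      ext x
      constructor
      · rintro ⟨h1, h2⟩
        have h1' : x ∈ S := h1
        exact ⟨hSE h1', by rw [hpos1 x h1']; exact h2⟩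
      · rintro ⟨h1, h2⟩
        have h3 : x ∈ S := by
          by_contra hcon
          rw [hpos2 x hcon] at h2
          omega
        rw [hpos1 x h3] at h2
        exact ⟨h3, h2⟩
    have hU1 : ∀ k, k ≤ N → U M pos k = U (M ↾ S) p k ∪ (M.E \ S) := by
      intro k hk
      ext x
      constructor
      · rintro ⟨h1, h2⟩
        by_cases h3 : x ∈ S
        · rw [hpos1 x h3] at h2
          exact Or.inl ⟨h3, h2⟩
        · exact Or.inr ⟨h1, h3⟩
      · rintro (⟨h1, h2⟩ | ⟨h1, h2⟩)
        · have h1' : x ∈ S := h1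
          exact ⟨hSE h1', by rw [hpos1 x h1']; exact h2⟩
        · exact ⟨h1, by rw [hpos2 x h2]; omega⟩
    have hL2 : ∀ k, L M pos (N + k) = S ∪ L (M ↾ (M.E \ S)) q k := by
      intro k
      ext x
      constructor
      · rintro ⟨h1, h2⟩
        by_cases h3 : x ∈ S
        · exact Or.inl h3
        · rw [hpos2 x h3] at h2
          exact Or.inr ⟨⟨h1, h3⟩, by omega⟩
      · rintro (h1 | ⟨h1, h2⟩)
        · have := hN x h1
          exact ⟨hSE h1, by rw [hpos1 x h1]; omega⟩
        · have h1' : x ∈ M.E \ S := h1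
          exact ⟨h1'.1, by rw [hpos2 x h1'.2]; omega⟩
    have hU2 : ∀ k, U M pos (N + k) = U (M ↾ (M.E \ S)) q k := by
      intro k
      ext x
      constructor
      · rintro ⟨h1, h2⟩
        by_cases h3 : x ∈ S
        · rw [hpos1 x h3] at h2
          have := hN x h3
          omega
        · rw [hpos2 x h3] at h2
          exact ⟨⟨h1, h3⟩, by omega⟩
      · rintro ⟨h1, h2⟩
        have h1' : x ∈ M.E \ S := h1
        exact ⟨h1'.1, by rw [hpos2 x h1'.2]; omega⟩
    have hdis : Disjoint S (M.E \ S) := Set.disjoint_sdiff_right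
    have hLsub : ∀ k, L (M ↾ S) p k ⊆ S := fun k x hx => hx.1
    have hUsub : ∀ k, U (M ↾ S) p k ⊆ S := fun k x hx => hx.1
    have hLsub' : ∀ k, L (M ↾ (M.E \ S)) q k ⊆ M.E \ S := fun k x hx => hx.1
    have hUsub' : ∀ k, U (M ↾ (M.E \ S)) q k ⊆ M.E \ S := fun k x hx => hx.1
    apply base_of_parts hSE hS _ _ hB.sub
    · apply hp.2
      refine ⟨Set.inter_subset_right, ?_, fun k => ?_, fun k => ?_⟩
      · rw [hBS]
        exact (rk_restrict subset_rfl).symm
      · rw [rk_restrict (hLsub k), Set.inter_assoc, Set.inter_eq_right.2 (hLsub k)]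
        rcases Nat.le_total k N with h | h
        · rw [hL1 k h]
          exact hB.low k
        · have h1 : L (M ↾ S) p k = S := by
            apply Set.Subset.antisymm (hLsub k)
            intro x hx
            exact ⟨hx, lt_of_lt_of_le (hN x hx) h⟩
          rw [h1]
          exact hBS.le
      · rw [rk_restrict (hUsub k), Set.inter_assoc, Set.inter_eq_right.2 (hUsub k)]
        rcases Nat.le_total k N with h | h
        · have h1 := hB.up k
          rw [hU1 k h, rk_union_sep hS ((hUsub k).trans hSE) Set.sdiff_subset (hUsub k) hdis.symm,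
            Set.inter_union_distrib_left, Set.ncard_union_eq _ (hfB.subset Set.inter_subset_left)
              (hfB.subset Set.inter_subset_left)] at h1
          · omega
          · exact hdis.mono (Set.inter_subset_right.trans (hUsub k)) Set.inter_subset_right
        · have h1 : B ∩ U (M ↾ S) p k = ∅ := by
            ext x
            constructor
            · rintro ⟨_, h2, h3⟩
              have := hN x h2
              omega
            · exact fun h => absurd h (Set.notMem_empty _)
          rw [h1, Set.ncard_empty]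
          exact Nat.zero_le _
    · apply hq.2
      refine ⟨Set.inter_subset_right, ?_, fun k => ?_, fun k => ?_⟩
      · rw [hBT]
        exact (rk_restrict subset_rfl).symm
      · rw [rk_restrict (hLsub' k), Set.inter_assoc, Set.inter_eq_right.2 (hLsub' k)]
        have h1 := hB.low (N + k)
        rw [hL2 k, rk_union_sep hS hSE ((hLsub' k).trans Set.sdiff_subset) subset_rfl
          (hdis.symm.mono_left (hLsub' k)),
          Set.inter_union_distrib_left, Set.ncard_union_eq _ (hfB.subset Set.inter_subset_left)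
            (hfB.subset Set.inter_subset_left)] at h1
        · omega
        · exact hdis.mono Set.inter_subset_right (Set.inter_subset_right.trans (hLsub' k))
      · rw [rk_restrict (hUsub' k), Set.inter_assoc, Set.inter_eq_right.2 (hUsub' k), ← hU2 k]
        exact hB.up (N + k)

/-- **restriction to a separator** -/
theorem op_restrict [M.Finite] {S : Set α} (hSE : S ⊆ M.E) (hS : Sep M S) {pos : α → ℕ} (hop : OP M pos) :
    OP (M ↾ S) pos := by
  have hfS := restrict_finite (M := M) hSE
  refine ⟨fun x hx y hy => hop.1 (hSE hx) (hSE hy), fun B hB => ?_⟩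
  obtain ⟨J, hJ, hJc⟩ := exists_basis (M := M) (X := M.E \ S) Set.sdiff_subset
  have hBS : B ⊆ S := hB.sub
  have hfB := M.set_finite B (hBS.trans hSE)
  have hfJ := M.set_finite J hJ.indep.subset_ground
  have hBJ : Disjoint B J := by
    rw [Set.disjoint_left]
    intro x hx hx'
    exact (hJ.subset hx').2 (hBS hx)
  have hseg : ∀ T : Set α, T ⊆ M.E → (B ∩ (T ∩ S)).ncard ≤ rk M (T ∩ S) → ((B ∪ J) ∩ T).ncard ≤ rk M T := by
    intro T hT h
    have h1 : T = (T ∩ S) ∪ (T \ S) := (Set.inter_union_sdiff T S).symm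
    have h2 : rk M T = rk M (T ∩ S) + rk M (T \ S) := by
      conv_lhs => rw [h1]
      exact rk_union_sep hS (Set.inter_subset_left.trans hT) (Set.sdiff_subset.trans hT)
        Set.inter_subset_right Set.disjoint_sdiff_left
    have h3 : (B ∪ J) ∩ T ⊆ (B ∩ (T ∩ S)) ∪ (J ∩ (T \ S)) := by
      rintro x ⟨hx1 | hx1, hx2⟩
      · exact Or.inl ⟨hx1, hx2, hBS hx1⟩
      · exact Or.inr ⟨hx1, hx2, (hJ.subset hx1).2⟩
    have h4 := Set.ncard_le_ncard h3 ((hfB.subset Set.inter_subset_left).union (hfJ.subset Set.inter_subset_left))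
    have h5 := Set.ncard_union_le (B ∩ (T ∩ S)) (J ∩ (T \ S))
    have h6 : (J ∩ (T \ S)).ncard ≤ rk M (T \ S) :=
      ncard_le_rk (hJ.indep.subset Set.inter_subset_left) Set.inter_subset_right
    omega
  have hEE : rk M M.E = rk M S + rk M (M.E \ S) := by
    rw [← rk_union_sep hS hSE Set.sdiff_subset subset_rfl Set.disjoint_sdiff_left,
      Set.union_sdiff_cancel hSE]
  have hrkS : rk (M ↾ S) (M ↾ S).E = rk M S := rk_restrict subset_rfl
  have hbase : M.IsBase (B ∪ J) := by
    apply hop.2
    refine ⟨Set.union_subset (hBS.trans hSE) hJ.indep.subset_ground, ?_, fun k => ?_, fun k => ?_⟩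
    · rw [Set.ncard_union_eq hBJ hfB hfJ, hB.card, hJc, hrkS, hEE]
    · apply hseg _ (L_sub M pos k)
      have h1 := hB.low k
      rw [L_restrict hSE, rk_restrict Set.inter_subset_right] at h1
      exact h1
    · apply hseg _ (U_sub M pos k)
      have h1 := hB.up k
      rw [U_restrict hSE, rk_restrict Set.inter_subset_right] at h1
      exact h1
  rw [Matroid.isBase_restrict_iff]
  apply isBasis_of (hbase.indep.subset Set.subset_union_left) hBS hSE
  rw [hB.card, hrkS]

end Pool.Agent.J4.H48.LPM
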